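import Pool.Agent.Lib.MP_b99895_an.Dyadic

set_option autoImplicit false

open scoped BigOperators

namespace Pool.Agent.Lib.MP_b99895_an

/-! ## Dyadic blocks -/

section Blocks

variable {G : Type} [Fintype G] [DecidableEq G]

/-- the block of level `l` containing `i` -/
def blk (c : ℕ → G → G) (l : ℕ) (i : G) : Finset G := Finset.univ.filter (fun j => c l j = c l i)

/-- the labellings `c l` are nested -/
def Nested (c : ℕ → G → G) : Prop := ∀ l i j, c l i = c l j → c (l + 1) i = c (l + 1) j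

variable {c : ℕ → G → G} {L : ℕ}

lemma mem_blk {l : ℕ} {i j : G} : j ∈ blk c l i ↔ c l j = c l i := by simp [blk]

lemma Nested.le (hc : Nested c) {l m : ℕ} (hlm : l ≤ m) {i j : G} (h : c l i = c l j) :
    c m i = c m j := by
  induction m, hlm using Nat.le_induction with
  | base => exact h
  | succ m _ ih => exact hc m i j ih

lemma blk_congr {l : ℕ} {i j : G} (h : c l i = c l j) : blk c l i = blk c l j := by
  simp only [blk, h]

/-- block sums -/
def bsum (c : ℕ → G → G) (l : ℕ) (i : G) (X : G → ℝ) : ℝ := ∑ j ∈ blk c l i, X j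

/-- the part of the block sum of level `m` at `i` with label `y` at level `l` -/
def part (c : ℕ → G → G) (l m : ℕ) (i : G) (X : G → ℝ) (y : G) : ℝ :=
  ∑ j ∈ blk c m i, if c l j = y then X j else 0

/-- sum of squares of the sums over the sub-blocks -/
def qsum (c : ℕ → G → G) (l m : ℕ) (i : G) (X : G → ℝ) : ℝ := ∑ y, part c l m i X y ^ 2

lemma qsum_nonneg (l m : ℕ) (i : G) (X : G → ℝ) : 0 ≤ qsum c l m i X :=
  Finset.sum_nonneg fun _ _ => sq_nonneg _

lemma bsum_eq_part (hc : Nested c) {l m : ℕ} (hlm : l ≤ m) (X : G → ℝ) {i i' : G}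
    (h : i' ∈ blk c m i) : bsum c l i' X = part c l m i X (c l i') := by
  unfold bsum part
  rw [← Finset.sum_filter]
  refine Finset.sum_congr ?_ fun _ _ => rfl
  ext j
  rw [mem_blk, Finset.mem_filter, mem_blk]
  constructor
  · intro hj
    exact ⟨(hc.le hlm hj).trans (mem_blk.1 h), hj⟩
  · exact fun hj => hj.2

/-- the cardinality of the fibres of a label -/
lemma card_fiber_le (hcard : ∀ l ≤ L, ∀ i, (blk c l i).card = 2 ^ l) {l : ℕ} (hl : l ≤ L) (y : G) :
    (Finset.univ.filter (fun j => c l j = y)).card ≤ 2 ^ l := by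
  rcases (Finset.univ.filter (fun j => c l j = y)).eq_empty_or_nonempty with h | ⟨i, hi⟩
  · rw [h]; simp
  · have hi' : c l i = y := (Finset.mem_filter.1 hi).2
    rw [← hcard l hl i, blk, hi']

lemma sum_sq_le (hc : Nested c) (hcard : ∀ l ≤ L, ∀ i, (blk c l i).card = 2 ^ l) {l m : ℕ}
    (hlm : l ≤ m) (hl : l ≤ L) (X : G → ℝ) (i : G) :
    ∑ i' ∈ blk c m i, bsum c l i' X ^ 2 ≤ 2 ^ l * qsum c l m i X := by
  have h1 : ∑ i' ∈ blk c m i, bsum c l i' X ^ 2
      = ∑ i' ∈ blk c m i, ∑ y, if c l i' = y then part c l m i X y ^ 2 else 0 := by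
    refine Finset.sum_congr rfl fun i' hi' => ?_
    rw [Finset.sum_ite_eq, if_pos (Finset.mem_univ _), bsum_eq_part hc hlm X hi']
  rw [h1, Finset.sum_comm]
  unfold qsum
  rw [Finset.mul_sum]
  refine Finset.sum_le_sum fun y _ => ?_
  rw [← Finset.sum_filter, Finset.sum_const, nsmul_eq_mul]
  refine mul_le_mul_of_nonneg_right ?_ (sq_nonneg _)
  have h2 : ((blk c m i).filter (fun i' => c l i' = y)).card ≤ 2 ^ l :=
    (Finset.card_le_card (Finset.filter_subset_filter _ (Finset.subset_univ _))).trans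
      (card_fiber_le hcard hl y)
  exact_mod_cast h2

/-- averaging over blocks -/
lemma sum_avg (hcard : ∀ l ≤ L, ∀ i, (blk c l i).card = 2 ^ l) {m : ℕ} (hm : m ≤ L)
    (F H : G → ℝ) (hH : ∀ i j, c m i = c m j → H i = H j) :
    2 ^ m * ∑ i, F i * H i = ∑ i, H i * ∑ i' ∈ blk c m i, F i' := by
  have h1 : ∑ i, H i * ∑ i' ∈ blk c m i, F i' = ∑ i, ∑ i', if c m i' = c m i then H i' * F i' else 0 := by
    refine Finset.sum_congr rfl fun i _ => ?_
    rw [Finset.mul_sum, blk, Finset.sum_filter]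
    refine Finset.sum_congr rfl fun i' _ => ?_
    split_ifs with h
    · rw [hH i i' h.symm]
    · rfl
  rw [h1, Finset.sum_comm, Finset.mul_sum]
  refine Finset.sum_congr rfl fun i' _ => ?_
  have h2 : ∀ i, (if c m i' = c m i then H i' * F i' else 0)
      = if c m i = c m i' then H i' * F i' else 0 := fun i => by
    by_cases h : c m i' = c m i
    · rw [if_pos h, if_pos h.symm]
    · rw [if_neg h, if_neg (Ne.symm h)]
  simp only [h2]
  rw [← Finset.sum_filter, Finset.sum_const]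
  change _ = (blk c m i').card • _
  rw [hcard m hm i', nsmul_eq_mul]
  push_cast
  ring

/-- the ratio `2^{-1/s}` -/
noncomputable def rho (s : ℝ) : ℝ := (2 : ℝ) ^ (-(1 / s))

lemma rho_pos (s : ℝ) : 0 < rho s := Real.rpow_pos_of_pos two_pos _

lemma rho_pow {s : ℝ} (hs : s ≠ 0) (m : ℕ) : (rho s ^ m) ^ s = ((2 : ℝ) ^ m)⁻¹ := by
  unfold rho
  rw [← Real.rpow_natCast, ← Real.rpow_mul two_pos.le, ← Real.rpow_mul two_pos.le,
    ← Real.rpow_natCast, ← Real.rpow_neg two_pos.le]
  congr 1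
  field_simp

/-- the ratio `2^{1/s - 1/2}` -/
noncomputable def beta (s : ℝ) : ℝ := (2 : ℝ) ^ (1 / s - 1 / 2)

lemma beta_pos (s : ℝ) : 0 < beta s := Real.rpow_pos_of_pos two_pos _

lemma beta_lt_one {s : ℝ} (hs : 2 < s) : beta s < 1 := by
  unfold beta
  apply Real.rpow_lt_one_of_one_lt_of_neg one_lt_two
  have : 1 / s < 1 / 2 := one_div_lt_one_div_of_lt two_pos hs
  linarith

lemma sqrt_two_mul_rho (s : ℝ) : beta s * (Real.sqrt 2 * rho s) = 1 := by
  unfold beta rho
  rw [Real.sqrt_eq_rpow, ← Real.rpow_add two_pos, ← Real.rpow_add two_pos]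
  have : 1 / s - 1 / 2 + (1 / 2 + -(1 / s)) = 0 := by ring
  rw [this, Real.rpow_zero]

/-- the renormalised square functions `B_{l,m}(i)` -/
noncomputable def sqf (c : ℕ → G → G) (s : ℝ) (l m : ℕ) (i : G) (X : G → ℝ) : ℝ :=
  rho s ^ m * Real.sqrt (qsum c l m i X)

lemma sqf_nonneg (s : ℝ) (l m : ℕ) (i : G) (X : G → ℝ) : 0 ≤ sqf c s l m i X :=
  mul_nonneg (pow_pos (rho_pos s) m).le (Real.sqrt_nonneg _)

/-- Cauchy–Schwarz on a block -/
lemma sum_abs_le (hc : Nested c) (hcard : ∀ l ≤ L, ∀ i, (blk c l i).card = 2 ^ l) {l k : ℕ}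
    (hm : l + k ≤ L) (s : ℝ) (X : G → ℝ) (i : G) :
    ∑ i' ∈ blk c (l + k) i, |rho s ^ l * bsum c l i' X| ≤
      2 ^ (l + k) * (beta s ^ k * sqf c s l (l + k) i X) := by
  set m := l + k with hmdef
  have h1 : (∑ i' ∈ blk c m i, |rho s ^ l * bsum c l i' X|) ^ 2 ≤
      (2 ^ m * (beta s ^ k * sqf c s l m i X)) ^ 2 := by
    have h2 := sq_sum_le_card_mul_sum_sq (s := blk c m i)
      (f := fun i' => |rho s ^ l * bsum c l i' X|)
    rw [hcard m hm i] at h2
    refine h2.trans ?_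
    have h3 : ∑ i' ∈ blk c m i, |rho s ^ l * bsum c l i' X| ^ 2
        = (rho s ^ l) ^ 2 * ∑ i' ∈ blk c m i, bsum c l i' X ^ 2 := by
      rw [Finset.mul_sum]
      exact Finset.sum_congr rfl fun i' _ => by rw [sq_abs, mul_pow]
    rw [h3]
    have h4 := sum_sq_le hc hcard (Nat.le_add_right l k) (by omega) X i
    have h5 : (2 ^ m * (beta s ^ k * sqf c s l m i X)) ^ 2
        = 2 ^ m * ((rho s ^ l) ^ 2 * (2 ^ l * qsum c l m i X)) := by
      unfold sqf
      rw [mul_pow, mul_pow, mul_pow, Real.sq_sqrt (qsum_nonneg _ _ _ _)]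
      have h6 : (beta s ^ k) ^ 2 * 2 ^ k * (rho s ^ k) ^ 2 = 1 := by
        have h7 := sqrt_two_mul_rho s
        have h8 : (beta s * (Real.sqrt 2 * rho s)) ^ 2 = 1 := by rw [h7]; norm_num
        rw [mul_pow, mul_pow, Real.sq_sqrt two_pos.le] at h8
        calc (beta s ^ k) ^ 2 * 2 ^ k * (rho s ^ k) ^ 2
            = (beta s ^ 2 * (2 * rho s ^ 2)) ^ k := by
              rw [mul_pow, mul_pow, ← pow_mul, ← pow_mul, ← pow_mul, ← pow_mul,
                mul_comm k 2]; ring
          _ = 1 := by rw [h8, one_pow]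
      have h9 : (2 : ℝ) ^ m = 2 ^ l * 2 ^ k := by rw [hmdef, pow_add]
      have h10 : rho s ^ m = rho s ^ l * rho s ^ k := by rw [hmdef, pow_add]
      rw [h9, h10]
      calc (2 ^ l * 2 ^ k) ^ 2 * ((beta s ^ k) ^ 2 * ((rho s ^ l * rho s ^ k) ^ 2 * qsum c l m i X))
          = (2 ^ l * 2 ^ k) * 2 ^ l * (rho s ^ l) ^ 2 * qsum c l m i X *
              ((beta s ^ k) ^ 2 * 2 ^ k * (rho s ^ k) ^ 2) := by ring
        _ = _ := by rw [h6]; ring
    rw [h5]
    push_cast
    gcongr
  exact abs_le_of_sq_le_sq' h1 (mul_nonneg (by positivity)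
    (mul_nonneg (pow_pos (beta_pos s) k).le (sqf_nonneg _ _ _ _ _))) |>.2

/-- the key estimate: different levels are almost disjoint -/
lemma cross_le (hc : Nested c) (hcard : ∀ l ≤ L, ∀ i, (blk c l i).card = 2 ^ l) {l k : ℕ}
    (hm : l + k ≤ L) (s : ℝ) {r : ℝ} (hr : 2 < r) (X : G → ℝ) :
    ∑ i, |rho s ^ l * bsum c l i X| * |rho s ^ (l + k) * bsum c (l + k) i X| ^ (r - 1) ≤
      beta s ^ k * ∑ i, (sqf c s l (l + k) i X ^ r +
        |rho s ^ (l + k) * bsum c (l + k) i X| ^ r) := by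
  set m := l + k with hmdef
  have h1 := sum_avg hcard hm (fun i => |rho s ^ l * bsum c l i X|)
    (fun i => |rho s ^ m * bsum c m i X| ^ (r - 1))
    (fun i j hij => by simp only [bsum, blk_congr hij])
  have h2 : ∑ i, |rho s ^ m * bsum c m i X| ^ (r - 1) *
      ∑ i' ∈ blk c m i, |rho s ^ l * bsum c l i' X|
      ≤ ∑ i, 2 ^ m * (beta s ^ k * (sqf c s l m i X ^ r + |rho s ^ m * bsum c m i X| ^ r)) := by
    refine Finset.sum_le_sum fun i _ => ?_
    have h3 := sum_abs_le hc hcard hm s X i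
    have h4 := young (sqf_nonneg (c := c) s l m i X) (abs_nonneg (rho s ^ m * bsum c m i X))
      (by linarith : (1 : ℝ) ≤ r)
    calc |rho s ^ m * bsum c m i X| ^ (r - 1) * ∑ i' ∈ blk c m i, |rho s ^ l * bsum c l i' X|
        ≤ |rho s ^ m * bsum c m i X| ^ (r - 1) * (2 ^ m * (beta s ^ k * sqf c s l m i X)) :=
          mul_le_mul_of_nonneg_left h3 (Real.rpow_nonneg (abs_nonneg _) _)
      _ = 2 ^ m * (beta s ^ k * (sqf c s l m i X * |rho s ^ m * bsum c m i X| ^ (r - 1))) := by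
          ring
      _ ≤ _ := by
          refine mul_le_mul_of_nonneg_left ?_ (by positivity)
          exact mul_le_mul_of_nonneg_left h4 (pow_pos (beta_pos s) k).le
  rw [← h1, ← Finset.mul_sum, ← Finset.mul_sum] at h2
  exact le_of_mul_le_mul_left h2 (by positivity)

/-- the indicator functional of a block -/
lemma ball_blk (hcard : ∀ l ≤ L, ∀ i, (blk c l i).card = 2 ^ l) {m : ℕ} (hm : m ≤ L) {s : ℝ}
    (hs : 0 < s) (i : G) (ε : G → ℝ) (hε : ∀ j, |ε j| = 1) :
    Ball s (fun j => if j ∈ blk c m i then rho s ^ m * ε j else 0) := by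
  unfold Ball
  have h1 : ∀ j, |if j ∈ blk c m i then rho s ^ m * ε j else 0| ^ s
      = if j ∈ blk c m i then ((2 : ℝ) ^ m)⁻¹ else 0 := by
    intro j
    split_ifs
    · rw [abs_mul, hε, mul_one, abs_of_pos (pow_pos (rho_pos s) m), rho_pow hs.ne']
    · rw [abs_zero, Real.zero_rpow hs.ne']
  simp only [h1]
  rw [← Finset.sum_filter, Finset.sum_const]
  have h2 : (Finset.univ.filter (fun j => j ∈ blk c m i)) = blk c m i := by
    ext j; simp
  rw [h2, hcard m hm i, nsmul_eq_mul]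
  push_cast
  rw [mul_inv_cancel₀ (by positivity)]

lemma domF_blk (hcard : ∀ l ≤ L, ∀ i, (blk c l i).card = 2 ^ l) {m : ℕ} (hm : m ≤ L) {s r : ℝ}
    (hs : 0 < s) (i : G) :
    DomF s r (fun X => |rho s ^ m * bsum c m i X| ^ r) 1 := by
  refine (DomF.single (ball_blk hcard hm hs i (fun _ => 1) (fun _ => abs_one))).mono
    (fun X => le_of_eq ?_) le_rfl
  congr 2
  unfold bsum
  rw [Finset.mul_sum, ← Finset.sum_filter_add_sum_filter_not Finset.univ (fun j => j ∈ blk c m i)]
  have h2 : (Finset.univ.filter (fun j => j ∈ blk c m i)) = blk c m i := by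
    ext j; simp
  rw [h2, Finset.sum_eq_zero (s := Finset.univ.filter (fun j => ¬ j ∈ blk c m i)), add_zero]
  · refine Finset.sum_congr rfl fun j hj => ?_
    rw [if_pos hj, mul_one]
  · intro j hj
    rw [if_neg (Finset.mem_filter.1 hj).2, zero_mul]

lemma domF_sqf (hcard : ∀ l ≤ L, ∀ i, (blk c l i).card = 2 ^ l) {l m : ℕ} (hm : m ≤ L) {s r : ℝ}
    (hs : 0 < s) (hr : 2 ≤ r) (i : G) :
    DomF s r (fun X => sqf c s l m i X ^ r) 1 := by
  have hr0 : 0 < r := by linarith
  have h1 : ∀ ω : G → Bool, DomF s r (fun X => (nΩ G)⁻¹ *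
      |∑ j, (if j ∈ blk c m i then rho s ^ m * sgn (c l j) ω else 0) * X j| ^ r)
      ((nΩ G)⁻¹ * 1) := fun ω =>
    (DomF.single (ball_blk hcard hm hs i (fun j => sgn (c l j) ω)
      (fun j => abs_sgn _ _))).smul (inv_nonneg.2 nΩ_pos.le)
  have h2 := DomF.sum (Finset.univ : Finset (G → Bool)) (fun ω _ => h1 ω)
  refine h2.mono (fun X => ?_) ?_
  · -- Khinchine
    have h3 := sgn_khinchine (fun y => part c l m i X y) hr
    have h4 : sqf c s l m i X ^ r = (rho s ^ m) ^ r * (∑ y, part c l m i X y ^ 2) ^ (r / 2) := by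
      unfold sqf
      rw [Real.mul_rpow (pow_pos (rho_pos s) m).le (Real.sqrt_nonneg _)]
      congr 1
      rw [Real.sqrt_eq_rpow, ← Real.rpow_mul (qsum_nonneg _ _ _ _)]
      unfold qsum
      congr 1
      ring
    have h5 : ∀ ω : G → Bool,
        ∑ j, (if j ∈ blk c m i then rho s ^ m * sgn (c l j) ω else 0) * X j
        = rho s ^ m * ∑ y, sgn y ω * part c l m i X y := by
      intro ω
      unfold part
      simp only [Finset.mul_sum]
      rw [Finset.sum_comm]
      have h6 : ∀ j, ∑ y, rho s ^ m * (sgn y ω * if c l j = y then X j else 0)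
          = rho s ^ m * sgn (c l j) ω * X j := by
        intro j
        rw [Finset.sum_eq_single (c l j)]
        · rw [if_pos rfl]; ring
        · intro y _ hy
          rw [if_neg (Ne.symm hy)]; ring
        · intro h; exact absurd (Finset.mem_univ _) h
      simp only [h6]
      rw [← Finset.sum_filter_add_sum_filter_not Finset.univ (fun j => j ∈ blk c m i)]
      have h2 : (Finset.univ.filter (fun j => j ∈ blk c m i)) = blk c m i := by
        ext j; simp
      rw [h2, Finset.sum_eq_zero (s := Finset.univ.filter (fun j => ¬ j ∈ blk c m i)), add_zero]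
      · refine Finset.sum_congr rfl fun j hj => ?_
        rw [if_pos hj]
      · intro j hj
        rw [if_neg (Finset.mem_filter.1 hj).2, zero_mul]
    have h6 : ∀ ω : G → Bool, |rho s ^ m * ∑ y, sgn y ω * part c l m i X y| ^ r
        = (rho s ^ m) ^ r * |∑ y, sgn y ω * part c l m i X y| ^ r := by
      intro ω
      rw [abs_mul, abs_of_pos (pow_pos (rho_pos s) m),
        Real.mul_rpow (pow_pos (rho_pos s) m).le (abs_nonneg _)]
    simp only [h5, h6]
    rw [h4, ← Finset.mul_sum, ← Finset.mul_sum]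
    calc (rho s ^ m) ^ r * (∑ y, part c l m i X y ^ 2) ^ (r / 2)
        ≤ (rho s ^ m) ^ r * ((nΩ G)⁻¹ * ∑ ω : G → Bool, |∑ y, sgn y ω * part c l m i X y| ^ r) :=
          mul_le_mul_of_nonneg_left h3 (Real.rpow_nonneg (pow_pos (rho_pos s) m).le _)
      _ = _ := by ring
  · rw [mul_one, Finset.sum_const, Finset.card_univ, nsmul_eq_mul]
    change nΩ G * (nΩ G)⁻¹ ≤ 1
    rw [mul_inv_cancel₀ nΩ_pos.ne']

/-- the dyadic kernel `f(i,j) = ∑_{l ≤ L} 2^{-l/s} 1[i, j in the same block of level l]` -/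
noncomputable def ker (c : ℕ → G → G) (L : ℕ) (s : ℝ) (i j : G) : ℝ :=
  ∑ l ∈ Finset.range (L + 1), if j ∈ blk c l i then rho s ^ l else 0

lemma ker_nonneg (s : ℝ) (i j : G) : 0 ≤ ker c L s i j :=
  Finset.sum_nonneg fun l _ => by
    split_ifs
    · exact (pow_pos (rho_pos s) l).le
    · exact le_rfl

lemma ker_apply (s : ℝ) (i : G) (X : G → ℝ) :
    ∑ j, ker c L s i j * X j = ∑ l ∈ Finset.range (L + 1), rho s ^ l * bsum c l i X := by
  unfold ker bsum
  simp only [Finset.sum_mul, Finset.mul_sum]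
  rw [Finset.sum_comm]
  refine Finset.sum_congr rfl fun l _ => ?_
  rw [← Finset.sum_filter_add_sum_filter_not Finset.univ (fun j => j ∈ blk c l i)]
  have h2 : (Finset.univ.filter (fun j => j ∈ blk c l i)) = blk c l i := by
    ext j; simp
  rw [h2, Finset.sum_eq_zero (s := Finset.univ.filter (fun j => ¬ j ∈ blk c l i)), add_zero]
  · refine Finset.sum_congr rfl fun j hj => ?_
    rw [if_pos hj]
  · intro j hj
    rw [if_neg (Finset.mem_filter.1 hj).2, zero_mul]

/-- the constant of the upper bound -/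
noncomputable def bigC (s r : ℝ) : ℝ :=
  (r * ((1 - beta s ^ (1 / (2 * (r - 2))))⁻¹) ^ (r - 2)) * (2 * (1 - beta s ^ ((1 : ℝ) / 2))⁻¹)

/-- **Upper bound for the positive dyadic matrix.** -/
lemma dyadic_dom (hc : Nested c) (hcard : ∀ l ≤ L, ∀ i, (blk c l i).card = 2 ^ l) {s r : ℝ}
    (hs : 2 < s) (hr : 2 < r) :
    Dom s r (ker c L s) (bigC s r * (Fintype.card G * (L + 1))) := by
  have hs0 : 0 < s := by linarith
  have hr0 : 0 < r := by linarith
  have hr2 : 0 < r - 2 := by linarith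
  set β := beta s with hβ
  have hβ0 : 0 < β := beta_pos s
  have hβ1 : β < 1 := beta_lt_one hs
  set δ : ℝ := β ^ (1 / (2 * (r - 2))) with hδ
  have hδ0 : 0 < δ := Real.rpow_pos_of_pos hβ0 _
  have hδ1 : δ < 1 := Real.rpow_lt_one hβ0.le hβ1 (by positivity)
  set γ : ℝ := β ^ ((1 : ℝ) / 2) with hγ
  have hγ0 : 0 < γ := Real.rpow_pos_of_pos hβ0 _
  have hγ1 : γ < 1 := Real.rpow_lt_one hβ0.le hβ1 (by positivity)
  have hδγ : δ ^ (-(r - 2)) * β = γ := by
    rw [hδ, hγ, ← Real.rpow_mul hβ0.le]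
    nth_rewrite 2 [← Real.rpow_one β]
    rw [← Real.rpow_add hβ0]
    congr 1
    field_simp
    ring
  set C1 : ℝ := r * ((1 - δ)⁻¹) ^ (r - 2) with hC1
  have hC10 : 0 ≤ C1 := mul_nonneg hr0.le (Real.rpow_nonneg (inv_nonneg.2 (by linarith)) _)
  -- the dominating functional
  have hdom : DomF s r (fun X => C1 * ∑ l ∈ Finset.range (L + 1), ∑ k ∈ Finset.range (L + 1 - l),
      γ ^ k * ∑ i : G, (sqf c s l (l + k) i X ^ r + |rho s ^ (l + k) * bsum c (l + k) i X| ^ r))
      (C1 * ∑ l ∈ Finset.range (L + 1), ∑ k ∈ Finset.range (L + 1 - l),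
        γ ^ k * ∑ _i : G, ((1 : ℝ) + 1)) := by
    refine DomF.smul (DomF.sum _ fun l hl => DomF.sum _ fun k hk => DomF.smul
      (DomF.sum _ fun i _ => ?_) (pow_pos hγ0 k).le) hC10
    have hm : l + k ≤ L := by
      rw [Finset.mem_range] at hl hk
      omega
    exact (domF_sqf hcard hm hs0 hr.le i).add (domF_blk hcard hm hs0 i)
  refine hdom.mono (fun X => ?_) ?_
  · calc ∑ i, |∑ j, ker c L s i j * X j| ^ r
        ≤ ∑ i, (∑ l ∈ Finset.range (L + 1), |rho s ^ l * bsum c l i X|) ^ r := by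
          refine Finset.sum_le_sum fun i _ => ?_
          rw [ker_apply]
          exact Real.rpow_le_rpow (abs_nonneg _) (Finset.abs_sum_le_sum_abs _ _) hr0.le
      _ ≤ ∑ i, C1 * ∑ l ∈ Finset.range (L + 1), ∑ k ∈ Finset.range (L + 1 - l),
            (δ ^ (-(r - 2))) ^ k * (|rho s ^ l * bsum c l i X| *
              |rho s ^ (l + k) * bsum c (l + k) i X| ^ (r - 1)) :=
          Finset.sum_le_sum fun i _ => telescope hr hδ0 hδ1
            (fun l => |rho s ^ l * bsum c l i X|) (fun l => abs_nonneg _) (L + 1)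
      _ = C1 * ∑ l ∈ Finset.range (L + 1), ∑ k ∈ Finset.range (L + 1 - l),
            (δ ^ (-(r - 2))) ^ k * ∑ i, (|rho s ^ l * bsum c l i X| *
              |rho s ^ (l + k) * bsum c (l + k) i X| ^ (r - 1)) := by
          rw [← Finset.mul_sum, Finset.sum_comm]
          congr 1
          refine Finset.sum_congr rfl fun l _ => ?_
          rw [Finset.sum_comm]
          exact Finset.sum_congr rfl fun k _ => by rw [Finset.mul_sum]
      _ ≤ C1 * ∑ l ∈ Finset.range (L + 1), ∑ k ∈ Finset.range (L + 1 - l),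
            γ ^ k * ∑ i, (sqf c s l (l + k) i X ^ r +
              |rho s ^ (l + k) * bsum c (l + k) i X| ^ r) := by
          refine mul_le_mul_of_nonneg_left (Finset.sum_le_sum fun l hl =>
            Finset.sum_le_sum fun k hk => ?_) hC10
          have hm : l + k ≤ L := by
            rw [Finset.mem_range] at hl hk
            omega
          have h1 := cross_le hc hcard hm s hr X
          calc (δ ^ (-(r - 2))) ^ k * ∑ i, (|rho s ^ l * bsum c l i X| *
                |rho s ^ (l + k) * bsum c (l + k) i X| ^ (r - 1))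
              ≤ (δ ^ (-(r - 2))) ^ k * (β ^ k * ∑ i, (sqf c s l (l + k) i X ^ r +
                |rho s ^ (l + k) * bsum c (l + k) i X| ^ r)) :=
                mul_le_mul_of_nonneg_left h1 (pow_pos (Real.rpow_pos_of_pos hδ0 _) k).le
            _ = γ ^ k * ∑ i, (sqf c s l (l + k) i X ^ r +
                |rho s ^ (l + k) * bsum c (l + k) i X| ^ r) := by
                rw [← mul_assoc, ← mul_pow, hδγ]
  · have h1 : ∀ l, ∑ k ∈ Finset.range (L + 1 - l), γ ^ k * ∑ _i : G, ((1 : ℝ) + 1)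
        ≤ (1 - γ)⁻¹ * (Fintype.card G * 2) := by
      intro l
      rw [← Finset.sum_mul]
      have h2 : ∑ _i : G, ((1 : ℝ) + 1) = Fintype.card G * 2 := by
        rw [Finset.sum_const, Finset.card_univ, nsmul_eq_mul]; norm_num
      rw [h2]
      exact mul_le_mul_of_nonneg_right (geom_le hγ0.le hγ1 _) (by positivity)
    have h3 : ∑ l ∈ Finset.range (L + 1), ∑ k ∈ Finset.range (L + 1 - l),
        γ ^ k * ∑ _i : G, ((1 : ℝ) + 1) ≤ (L + 1) * ((1 - γ)⁻¹ * (Fintype.card G * 2)) := by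
      refine (Finset.sum_le_sum fun l _ => h1 l).trans_eq ?_
      rw [Finset.sum_const, Finset.card_range, nsmul_eq_mul]
      push_cast
      ring
    refine (mul_le_mul_of_nonneg_left h3 hC10).trans_eq ?_
    unfold bigC
    rw [← hβ, ← hδ, ← hγ, ← hC1]
    ring

/-- **Lower bound for the signed dyadic matrix.** -/
lemma dyadic_low (hcard : ∀ l ≤ L, ∀ i, (blk c l i).card = 2 ^ l) {s r : ℝ}
    (hs : 2 < s) (hsr : s ≤ r) :
    Low s r (signed (ker c L s)) (nΩ G ^ (r / s) * (Fintype.card G * ((L : ℝ) + 1) ^ (r / s))) := by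
  have hs0 : 0 < s := by linarith
  obtain ⟨T, hT, w, hw, hκ⟩ := low_signed (f := ker c L s) (fun i j => ker_nonneg s i j)
    hs.le hsr
  refine ⟨T, hT, w, hw, le_trans ?_ hκ⟩
  refine mul_le_mul_of_nonneg_left ?_ (Real.rpow_nonneg nΩ_pos.le _)
  have h1 : ∀ i, ((L : ℝ) + 1) ≤ ∑ j, ker c L s i j ^ s := by
    intro i
    have h2 : ∀ j, ∑ l ∈ Finset.range (L + 1), (if j ∈ blk c l i then rho s ^ l else 0) ^ s
        ≤ ker c L s i j ^ s := fun j =>
      sum_rpow_le_rpow_sum _ _ (by linarith) fun l _ => by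
        split_ifs
        · exact (pow_pos (rho_pos s) l).le
        · exact le_rfl
    refine le_trans ?_ (Finset.sum_le_sum fun j _ => h2 j)
    rw [Finset.sum_comm]
    have h3 : ∀ l ∈ Finset.range (L + 1),
        ∑ j, (if j ∈ blk c l i then rho s ^ l else 0) ^ s = 1 := by
      intro l hl
      have hl' : l ≤ L := Nat.lt_succ_iff.1 (Finset.mem_range.1 hl)
      have h4 : ∀ j, (if j ∈ blk c l i then rho s ^ l else 0) ^ s
          = if j ∈ blk c l i then ((2 : ℝ) ^ l)⁻¹ else 0 := by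
        intro j
        split_ifs
        · exact rho_pow hs0.ne' l
        · exact Real.zero_rpow hs0.ne'
      simp only [h4]
      rw [← Finset.sum_filter, Finset.sum_const]
      have h2 : (Finset.univ.filter (fun j => j ∈ blk c l i)) = blk c l i := by
        ext j; simp
      rw [h2, hcard l hl' i, nsmul_eq_mul]
      push_cast
      rw [mul_inv_cancel₀ (by positivity)]
    rw [Finset.sum_congr rfl h3, Finset.sum_const, Finset.card_range, nsmul_eq_mul]
    push_cast
    linarith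
  have h5 : ∀ i, ((L : ℝ) + 1) ^ (r / s) ≤ (∑ j, ker c L s i j ^ s) ^ (r / s) := fun i =>
    Real.rpow_le_rpow (by positivity) (h1 i) (div_nonneg (by linarith) hs0.le)
  refine le_trans (le_of_eq ?_) (Finset.sum_le_sum fun i _ => h5 i)
  rw [Finset.sum_const, Finset.card_univ, nsmul_eq_mul]

end Blocks

/-! ## Existence of dyadic blocks -/

/-- labels on `Fin (2^L)`: the quotient by `2^l` -/
def lab (L : ℕ) (l : ℕ) (i : Fin (2 ^ L)) : Fin (2 ^ L) :=
  ⟨i / 2 ^ l, (Nat.div_le_self _ _).trans_lt i.2⟩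

lemma lab_nested (L : ℕ) : Nested (lab L) := by
  intro l i j h
  have h' : (i : ℕ) / 2 ^ l = (j : ℕ) / 2 ^ l := congrArg Fin.val h
  apply Fin.ext
  change (i : ℕ) / 2 ^ (l + 1) = (j : ℕ) / 2 ^ (l + 1)
  rw [pow_succ, ← Nat.div_div_eq_div_mul, ← Nat.div_div_eq_div_mul, h']

lemma lab_card (L : ℕ) : ∀ l ≤ L, ∀ i, (blk (lab L) l i).card = 2 ^ l := by
  intro l hl i
  have hpos : 0 < 2 ^ l := by positivity
  have hdvd : (2 : ℕ) ^ L = 2 ^ l * 2 ^ (L - l) := by rw [← pow_add]; congr 1; omega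
  set a := (i : ℕ) / 2 ^ l with ha
  have hai : a < 2 ^ (L - l) := by
    rw [ha, Nat.div_lt_iff_lt_mul hpos, mul_comm, ← hdvd]
    exact i.2
  have hbound : ∀ t, t < 2 ^ l → a * 2 ^ l + t < 2 ^ L := by
    intro t ht
    rw [hdvd]
    calc a * 2 ^ l + t < a * 2 ^ l + 2 ^ l := by omega
      _ = 2 ^ l * (a + 1) := by ring
      _ ≤ 2 ^ l * 2 ^ (L - l) := Nat.mul_le_mul_left _ hai
  rw [← Finset.card_range (2 ^ l)]
  symm
  refine Finset.card_bij (fun t ht => ⟨a * 2 ^ l + t, hbound t (Finset.mem_range.1 ht)⟩) ?_ ?_ ?_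
  · intro t ht
    rw [mem_blk]
    apply Fin.ext
    change (a * 2 ^ l + t) / 2 ^ l = (i : ℕ) / 2 ^ l
    rw [mul_comm, Nat.mul_add_div hpos, Nat.div_eq_of_lt (Finset.mem_range.1 ht), add_zero]
  · intro t _ t' _ h
    have := congrArg Fin.val h
    simpa using this
  · intro j hj
    rw [mem_blk] at hj
    have hj' : (j : ℕ) / 2 ^ l = a := congrArg Fin.val hj
    refine ⟨(j : ℕ) % 2 ^ l, Finset.mem_range.2 (Nat.mod_lt _ hpos), ?_⟩
    apply Fin.ext
    change a * 2 ^ l + (j : ℕ) % 2 ^ l = j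
    rw [← hj', mul_comm]
    exact Nat.div_add_mod _ _

/-- **The basic example.** For `2 < s < r` there are nonnegative matrices for which the signed
version has a much larger `r`-summing norm. -/
lemma exists_base {s r : ℝ} (hs : 2 < s) (hsr : s < r) (R : ℝ) :
    ∃ (I J : Type) (_ : Fintype I) (_ : Fintype J) (_ : Nonempty I) (_ : Nonempty J)
      (a b : I → J → ℝ) (K κ : ℝ), 0 < K ∧ 0 ≤ κ ∧ (∀ i j, |b i j| ≤ a i j) ∧
      Dom s r a K ∧ Low s r b κ ∧ R * K < κ := by
  have hs0 : 0 < s := by linarith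
  have hr0 : 0 < r := by linarith
  have hr2 : 2 < r := by linarith
  -- choose `L`
  have hexp : 0 < r / s - 1 := by
    rw [sub_pos, lt_div_iff₀ hs0, one_mul]; exact hsr
  set C := bigC s r with hC
  obtain ⟨L, hL⟩ : ∃ L : ℕ, R * C < ((L : ℝ) + 1) ^ (r / s - 1) := by
    have h1 := (tendsto_rpow_atTop hexp).comp
      (Filter.tendsto_atTop_add_const_right _ (1 : ℝ) tendsto_natCast_atTop_atTop)
    exact ((Filter.tendsto_atTop.1 h1 (R * C + 1)).exists).imp fun L h => by
      simp only [Function.comp] at h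
      linarith
  have hCpos : 0 < C := by
    rw [hC]
    unfold bigC
    have hβ1 := beta_lt_one hs
    have hβ0 := beta_pos s
    have h1 : beta s ^ (1 / (2 * (r - 2))) < 1 :=
      Real.rpow_lt_one hβ0.le hβ1 (by have : 0 < r - 2 := by linarith
                                      positivity)
    have h2 : beta s ^ ((1 : ℝ) / 2) < 1 := Real.rpow_lt_one hβ0.le hβ1 (by positivity)
    have h3 : 0 < (1 - beta s ^ (1 / (2 * (r - 2))))⁻¹ := inv_pos.2 (by linarith)
    have h4 : 0 < (1 - beta s ^ ((1 : ℝ) / 2))⁻¹ := inv_pos.2 (by linarith)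
    exact mul_pos (mul_pos hr0 (Real.rpow_pos_of_pos h3 _)) (mul_pos two_pos h4)
  set G := Fin (2 ^ L) with hG
  have hne : Nonempty G := ⟨⟨0, by positivity⟩⟩
  have hcardG : (0 : ℝ) < Fintype.card G := by
    exact_mod_cast Fintype.card_pos (α := G)
  have hn : 0 < nΩ G ^ (r / s) := Real.rpow_pos_of_pos nΩ_pos _
  refine ⟨G, G × (G → Bool), inferInstance, inferInstance, inferInstance, inferInstance,
    unsigned (ker (lab L) L s), signed (ker (lab L) L s),
    nΩ G ^ (r / s) * (C * (Fintype.card G * (L + 1))),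
    nΩ G ^ (r / s) * (Fintype.card G * ((L : ℝ) + 1) ^ (r / s)), by positivity, by positivity,
    abs_signed_le fun i j => ker_nonneg s i j,
    dom_unsigned hs0 (dyadic_dom (lab_nested L) (lab_card L) hs hr2),
    dyadic_low (lab_card L) hs hsr.le, ?_⟩
  have h1 : ((L : ℝ) + 1) ^ (r / s) = ((L : ℝ) + 1) ^ (r / s - 1) * (L + 1) := by
    have hLpos : (0 : ℝ) < (L : ℝ) + 1 := by positivity
    nth_rewrite 3 [← Real.rpow_one ((L : ℝ) + 1)]
    rw [← Real.rpow_add hLpos]
    congr 1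
    ring
  rw [h1]
  have h2 : nΩ G ^ (r / s) * (Fintype.card G * (((L : ℝ) + 1) ^ (r / s - 1) * (L + 1)))
      = (nΩ G ^ (r / s) * (Fintype.card G * (L + 1))) * ((L : ℝ) + 1) ^ (r / s - 1) := by ring
  have h3 : R * (nΩ G ^ (r / s) * (C * (Fintype.card G * (L + 1))))
      = (nΩ G ^ (r / s) * (Fintype.card G * (L + 1))) * (R * C) := by ring
  rw [h2, h3]
  exact mul_lt_mul_of_pos_left hL (by positivity)

end Pool.Agent.Lib.MP_b99895_an
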