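import Mathlib

set_option autoImplicit false

open MeasureTheory
open scoped ENNReal BigOperators

namespace Pool.Agent.Lib.MP_b99895_an

/-! ## Absolutely `r`-summing operators -/

section Summing

variable {X Y : Type*} [NormedAddCommGroup X] [NormedSpace ℝ X]
  [NormedAddCommGroup Y] [NormedSpace ℝ Y]

/-- The weak `ℓ_r` norm of a finite family: `sup_{‖φ‖ ≤ 1} (∑ k, |φ (x k)|^r)^(1/r)`. -/
noncomputable def weakNorm (r : ℝ) {n : ℕ} (x : Fin n → X) : ℝ :=
  ⨆ φ : Metric.closedBall (0 : StrongDual ℝ X) 1,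
    (∑ k, |(φ : StrongDual ℝ X) (x k)| ^ r) ^ (1 / r)

/-- `C ≥ 0` is an admissible constant in the definition of `r`-absolutely summing operators:
`(∑ k, ‖T (x k)‖^r)^(1/r) ≤ C * weakNorm r x` for all finite families `x`. -/
def SummingBound (r : ℝ) (T : X →L[ℝ] Y) (C : ℝ) : Prop :=
  0 ≤ C ∧ ∀ (n : ℕ) (x : Fin n → X), (∑ k, ‖T (x k)‖ ^ r) ^ (1 / r) ≤ C * weakNorm r x

/-- `T` is `r`-absolutely summing. -/
def IsSumming (r : ℝ) (T : X →L[ℝ] Y) : Prop := ∃ C, SummingBound r T C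

/-- The `r`-summing norm `π_r(T)`: the least admissible constant. -/
noncomputable def piNorm (r : ℝ) (T : X →L[ℝ] Y) : ℝ := sInf {C | SummingBound r T C}

end Summing

/-! ## Operators between Banach lattices -/

section Lattice

variable {X Y : Type*} [NormedAddCommGroup X] [NormedSpace ℝ X] [PartialOrder X]
  [NormedAddCommGroup Y] [NormedSpace ℝ Y] [PartialOrder Y]

/-- The order of operators: `T ≤ S` iff `T f ≤ S f` for all `f ≥ 0`. -/
def OpLE (T S : X →L[ℝ] Y) : Prop := ∀ f, 0 ≤ f → T f ≤ S f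

/-- `U` is regular: a difference of two positive operators. -/
def IsRegularOp (U : X →L[ℝ] Y) : Prop :=
  ∃ P Q : X →L[ℝ] Y, OpLE 0 P ∧ OpLE 0 Q ∧ U = P - Q

/-- `A = |U|`: the operator `A` is the modulus `U ∨ (-U)` of `U` in the ordered vector space of
regular operators. -/
def IsModulus (U A : X →L[ℝ] Y) : Prop :=
  IsRegularOp A ∧ OpLE U A ∧ OpLE (-U) A ∧
    ∀ B : X →L[ℝ] Y, IsRegularOp B → OpLE U B → OpLE (-U) B → OpLE A B

variable (X Y) in
/-- The lattice property of the `r`-summing operators from `X` to `Y`: every `U ∈ Π_r(X, Y)` is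
regular with `|U| ∈ Π_r(X, Y)`, and there is a constant `C` such that `π_r(V) ≤ C π_r(U)`
whenever `U, V ∈ Π_r(X, Y)` and `|V| ≤ |U|`. -/
def SummingLattice (r : ℝ) : Prop :=
  (∀ U : X →L[ℝ] Y, IsSumming r U → IsRegularOp U ∧ ∃ A, IsModulus U A ∧ IsSumming r A) ∧
  ∃ C : ℝ, ∀ U V A B : X →L[ℝ] Y, IsSumming r U → IsSumming r V →
    IsModulus U A → IsModulus V B → OpLE B A → piNorm r V ≤ C * piNorm r U

end Lattice

/-- Lebesgue measure on `[0,1]`. -/
noncomputable abbrev leb : Measure ℝ := volume.restrict (Set.Icc (0 : ℝ) 1)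

/-- The statement `S(p,q)` of the problem (for the fixed exponent `r`), i.e. the lattice property
of the `r`-summing operators from `L^p[0,1]` to `L^q[0,1]` (real scalars). -/
def LatticeProperty (p q : ℝ≥0∞) [Fact (1 ≤ p)] [Fact (1 ≤ q)] (r : ℝ) : Prop :=
  SummingLattice (Lp ℝ p leb) (Lp ℝ q leb) r

end Pool.Agent.Lib.MP_b99895_an
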