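import Pool.Agent.Lib.MP_b99895_an.Signs

set_option autoImplicit false

open scoped BigOperators

namespace Pool.Agent.Lib.MP_b99895_an

/-! ## A telescoping inequality for real sequences -/

lemma geom_le {δ : ℝ} (h0 : 0 ≤ δ) (h1 : δ < 1) (n : ℕ) :
    ∑ k ∈ Finset.range n, δ ^ k ≤ (1 - δ)⁻¹ := by
  rw [geom_sum_eq h1.ne, ← neg_div_neg_eq, neg_sub, neg_sub, inv_eq_one_div]
  have h2 : 0 < 1 - δ := by linarith
  have h3 : 0 ≤ δ ^ n := pow_nonneg h0 n
  exact div_le_div_of_nonneg_right (by linarith) h2.le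

lemma rpow_sub_rpow_le {a b r : ℝ} (hb : 0 ≤ b) (hab : b ≤ a) (hr : 1 ≤ r) :
    a ^ r - b ^ r ≤ r * ((a - b) * a ^ (r - 1)) := by
  rcases (hb.trans hab).eq_or_lt with h0 | hpos
  · have hb0 : b = 0 := le_antisymm (hab.trans h0.symm.le) hb
    rw [hb0, ← h0]
    simp
  · have h1 : -1 ≤ b / a - 1 := by
      have : 0 ≤ b / a := div_nonneg hb hpos.le
      linarith
    have h2 := one_add_mul_self_le_rpow_one_add h1 hr
    rw [add_sub_cancel, Real.div_rpow hb hpos.le, le_div_iff₀ (Real.rpow_pos_of_pos hpos r)] at h2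
    have h3 : a ^ r = a * a ^ (r - 1) := by
      nth_rewrite 2 [← Real.rpow_one a]
      rw [← Real.rpow_add hpos]
      congr 1
      ring
    have h4 : (1 + r * (b / a - 1)) * a ^ r = a ^ r - r * ((a - b) * a ^ (r - 1)) := by
      have h5 : (b / a) * a ^ r = b * a ^ (r - 1) := by
        rw [h3, div_mul_eq_mul_div, ← mul_assoc, mul_div_assoc, mul_comm b a, mul_assoc,
          mul_div_assoc', mul_div_assoc', mul_comm a (b * a ^ (r - 1)), mul_div_assoc,
          div_self hpos.ne', mul_one]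
      calc (1 + r * (b / a - 1)) * a ^ r = a ^ r + r * ((b / a) * a ^ r - a ^ r) := by ring
        _ = a ^ r + r * (b * a ^ (r - 1) - a * a ^ (r - 1)) := by rw [h5, ← h3]
        _ = a ^ r - r * ((a - b) * a ^ (r - 1)) := by ring
    rw [h4] at h2
    linarith

/-- Hölder's inequality with geometric weights. -/
lemma sum_rpow_le_geom {t δ : ℝ} (ht : 1 < t) (hδ0 : 0 < δ) (hδ1 : δ < 1) (a : ℕ → ℝ)
    (ha : ∀ l, 0 ≤ a l) (n : ℕ) :
    (∑ k ∈ Finset.range n, a k) ^ t ≤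
      ((1 - δ)⁻¹) ^ (t - 1) * ∑ k ∈ Finset.range n, (δ ^ (-(t - 1))) ^ k * a k ^ t := by
  have ht0 : 0 < t := by linarith
  have ht1 : 0 < t - 1 := by linarith
  have hconj : t.HolderConjugate (t / (t - 1)) := by
    rw [Real.holderConjugate_iff]
    refine ⟨ht, ?_⟩
    field_simp
    ring
  set lam : ℝ := δ ^ (-(t - 1)) with hlam
  have hlam0 : 0 < lam := Real.rpow_pos_of_pos hδ0 _
  -- weights
  set μ : ℕ → ℝ := fun k => (lam ^ k) ^ (1 / t) with hμ
  have hμ0 : ∀ k, 0 < μ k := fun k => Real.rpow_pos_of_pos (pow_pos hlam0 k) _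
  have h1 := Real.inner_le_Lp_mul_Lq_of_nonneg (Finset.range n) (f := fun k => μ k * a k)
    (g := fun k => (μ k)⁻¹) hconj (fun k _ => mul_nonneg (hμ0 k).le (ha k))
    (fun k _ => inv_nonneg.2 (hμ0 k).le)
  have h2 : ∀ k, μ k * a k * (μ k)⁻¹ = a k := fun k => by
    rw [mul_comm (μ k) (a k), mul_assoc, mul_inv_cancel₀ (hμ0 k).ne', mul_one]
  have h3 : ∀ k, (μ k * a k) ^ t = lam ^ k * a k ^ t := by
    intro k
    rw [Real.mul_rpow (hμ0 k).le (ha k)]
    congr 1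
    simp only [hμ]
    rw [← Real.rpow_mul (pow_pos hlam0 k).le, one_div, inv_mul_cancel₀ ht0.ne', Real.rpow_one]
  have h4 : ∀ k, ((μ k)⁻¹) ^ (t / (t - 1)) = δ ^ k := by
    intro k
    simp only [hμ, hlam]
    rw [← Real.rpow_natCast, ← Real.rpow_mul hδ0.le, ← Real.rpow_mul hδ0.le,
      ← Real.rpow_neg hδ0.le, ← Real.rpow_mul hδ0.le, ← Real.rpow_natCast]
    congr 1
    field_simp
  simp only [h2, h3, h4] at h1
  have h5 : 0 ≤ ∑ k ∈ Finset.range n, a k := Finset.sum_nonneg fun k _ => ha k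
  have h6 : 0 ≤ ∑ k ∈ Finset.range n, lam ^ k * a k ^ t := Finset.sum_nonneg fun k _ =>
    mul_nonneg (pow_pos hlam0 k).le (Real.rpow_nonneg (ha k) t)
  have h7 : 0 ≤ ∑ k ∈ Finset.range n, δ ^ k := Finset.sum_nonneg fun k _ => (pow_pos hδ0 k).le
  calc (∑ k ∈ Finset.range n, a k) ^ t
      ≤ ((∑ k ∈ Finset.range n, lam ^ k * a k ^ t) ^ (1 / t) *
          (∑ k ∈ Finset.range n, δ ^ k) ^ (1 / (t / (t - 1)))) ^ t :=
        Real.rpow_le_rpow h5 h1 ht0.le
    _ = (∑ k ∈ Finset.range n, lam ^ k * a k ^ t) * (∑ k ∈ Finset.range n, δ ^ k) ^ (t - 1) := by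
        rw [Real.mul_rpow (Real.rpow_nonneg h6 _) (Real.rpow_nonneg h7 _), ← Real.rpow_mul h6,
          ← Real.rpow_mul h7, one_div, inv_mul_cancel₀ ht0.ne', Real.rpow_one]
        congr 2
        field_simp
    _ ≤ (∑ k ∈ Finset.range n, lam ^ k * a k ^ t) * ((1 - δ)⁻¹) ^ (t - 1) :=
        mul_le_mul_of_nonneg_left
          (Real.rpow_le_rpow h7 (geom_le hδ0.le hδ1 n) ht1.le) h6
    _ = ((1 - δ)⁻¹) ^ (t - 1) * ∑ k ∈ Finset.range n, lam ^ k * a k ^ t := mul_comm _ _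

/-- The telescoping inequality, `(∑ a_l)^r ≤ C ∑_{l ≤ m} λ^{m-l} a_l a_m^{r-1}`. -/
lemma telescope {r δ : ℝ} (hr : 2 < r) (hδ0 : 0 < δ) (hδ1 : δ < 1) (a : ℕ → ℝ)
    (ha : ∀ l, 0 ≤ a l) (n : ℕ) :
    (∑ l ∈ Finset.range n, a l) ^ r ≤
      (r * ((1 - δ)⁻¹) ^ (r - 2)) * ∑ l ∈ Finset.range n, ∑ k ∈ Finset.range (n - l),
        (δ ^ (-(r - 2))) ^ k * (a l * a (l + k) ^ (r - 1)) := by
  have hr0 : 0 < r := by linarith
  set T : ℕ → ℝ := fun l => ∑ m ∈ Finset.Ico l n, a m with hT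
  have hT0 : ∀ l, 0 ≤ T l := fun l => Finset.sum_nonneg fun m _ => ha m
  have hTn : T n = 0 := by simp [hT]
  have hstep : ∀ l, l < n → T l = a l + T (l + 1) := fun l hl =>
    Finset.sum_eq_sum_Ico_succ_bot hl a
  have htel := Finset.sum_range_sub' (fun l => T l ^ r) n
  have h0 : (∑ l ∈ Finset.range n, a l) ^ r = ∑ l ∈ Finset.range n, (T l ^ r - T (l + 1) ^ r) := by
    rw [htel]
    simp only [hTn, Real.zero_rpow hr0.ne', sub_zero]
    simp [hT]
  rw [h0, Finset.mul_sum]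
  refine Finset.sum_le_sum fun l hl => ?_
  have hl' : l < n := Finset.mem_range.1 hl
  have h1 : T l ^ r - T (l + 1) ^ r ≤ r * ((T l - T (l + 1)) * T l ^ (r - 1)) :=
    rpow_sub_rpow_le (hT0 _) (by rw [hstep l hl']; linarith [ha l]) (by linarith)
  have h2 : T l - T (l + 1) = a l := by rw [hstep l hl']; ring
  have h3 : T l = ∑ k ∈ Finset.range (n - l), a (l + k) := by
    simp only [hT]
    rw [Finset.sum_Ico_eq_sum_range]
  have h4 := sum_rpow_le_geom (t := r - 1) (by linarith) hδ0 hδ1 (fun k => a (l + k))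
    (fun k => ha _) (n - l)
  rw [← h3] at h4
  have h5 : r - 1 - 1 = r - 2 := by ring
  rw [h5] at h4
  rw [h2] at h1
  calc T l ^ r - T (l + 1) ^ r ≤ r * (a l * T l ^ (r - 1)) := h1
    _ ≤ r * (a l * (((1 - δ)⁻¹) ^ (r - 2) *
          ∑ k ∈ Finset.range (n - l), (δ ^ (-(r - 2))) ^ k * a (l + k) ^ (r - 1))) := by
        apply mul_le_mul_of_nonneg_left _ hr0.le
        exact mul_le_mul_of_nonneg_left h4 (ha l)
    _ = r * ((1 - δ)⁻¹) ^ (r - 2) * ∑ k ∈ Finset.range (n - l),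
          (δ ^ (-(r - 2))) ^ k * (a l * a (l + k) ^ (r - 1)) := by
        simp only [Finset.mul_sum]
        refine Finset.sum_congr rfl fun k _ => ?_
        ring

lemma young {x y r : ℝ} (hx : 0 ≤ x) (hy : 0 ≤ y) (hr : 1 ≤ r) :
    x * y ^ (r - 1) ≤ x ^ r + y ^ r := by
  have hr0 : 0 < r := by linarith
  have key : ∀ z : ℝ, 0 ≤ z → z * z ^ (r - 1) = z ^ r := by
    intro z hz
    rcases hz.eq_or_lt with h | h
    · rw [← h, zero_mul, Real.zero_rpow hr0.ne']
    · nth_rewrite 1 [← Real.rpow_one z]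
      rw [← Real.rpow_add h]
      congr 1
      ring
  rcases le_total x y with h | h
  · have h1 : x * y ^ (r - 1) ≤ y * y ^ (r - 1) :=
      mul_le_mul_of_nonneg_right h (Real.rpow_nonneg hy _)
    rw [key y hy] at h1
    have := Real.rpow_nonneg hx r
    linarith
  · have h1 : x * y ^ (r - 1) ≤ x * x ^ (r - 1) :=
      mul_le_mul_of_nonneg_left (Real.rpow_le_rpow hy h (by linarith)) hx
    rw [key x hx] at h1
    have := Real.rpow_nonneg hy r
    linarith

/-! ## Calculus of dominations -/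

/-- the nonlinear functional `N` is dominated by a measure of mass `≤ K` on the ball of `ℓ_s` -/
def DomF {J : Type} [Fintype J] (s r : ℝ) (N : (J → ℝ) → ℝ) (K : ℝ) : Prop :=
  ∃ (S : Type) (_ : Fintype S) (μ : S → ℝ) (g : S → J → ℝ), (∀ t, 0 ≤ μ t) ∧ ∑ t, μ t ≤ K ∧
    (∀ t, Ball s (g t)) ∧ ∀ x : J → ℝ, N x ≤ ∑ t, μ t * |∑ j, g t j * x j| ^ r

section DomF

variable {J : Type} [Fintype J] {s r : ℝ}

lemma DomF.mono {N N' : (J → ℝ) → ℝ} {K K' : ℝ} (h : DomF s r N K) (hN : ∀ x, N' x ≤ N x)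
    (hK : K ≤ K') : DomF s r N' K' := by
  obtain ⟨S, hS, μ, g, hμ, hμK, hg, hdom⟩ := h
  exact ⟨S, hS, μ, g, hμ, hμK.trans hK, hg, fun x => (hN x).trans (hdom x)⟩

lemma DomF.zero : DomF s r (fun _ : J → ℝ => (0 : ℝ)) 0 :=
  ⟨Empty, inferInstance, fun _ => 0, fun _ _ => 0, fun _ => le_refl _, by simp,
    fun t => t.elim, fun x => by simp⟩

lemma DomF.single {g : J → ℝ} (hg : Ball s g) :
    DomF s r (fun x => |∑ j, g j * x j| ^ r) 1 :=
  ⟨Unit, inferInstance, fun _ => 1, fun _ => g, fun _ => zero_le_one, by simp, fun _ => hg,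
    fun x => by simp⟩

lemma DomF.smul {N : (J → ℝ) → ℝ} {K : ℝ} (h : DomF s r N K) {c : ℝ} (hc : 0 ≤ c) :
    DomF s r (fun x => c * N x) (c * K) := by
  obtain ⟨S, hS, μ, g, hμ, hμK, hg, hdom⟩ := h
  refine ⟨S, hS, fun t => c * μ t, g, fun t => mul_nonneg hc (hμ t), ?_, hg, fun x => ?_⟩
  · rw [← Finset.mul_sum]
    exact mul_le_mul_of_nonneg_left hμK hc
  · have := mul_le_mul_of_nonneg_left (hdom x) hc
    rw [Finset.mul_sum] at this
    simpa only [mul_assoc] using this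

lemma DomF.add {N N' : (J → ℝ) → ℝ} {K K' : ℝ} (h : DomF s r N K) (h' : DomF s r N' K') :
    DomF s r (fun x => N x + N' x) (K + K') := by
  obtain ⟨S, hS, μ, g, hμ, hμK, hg, hdom⟩ := h
  obtain ⟨S', hS', μ', g', hμ', hμK', hg', hdom'⟩ := h'
  refine ⟨S ⊕ S', inferInstance, Sum.elim μ μ', Sum.elim g g', ?_, ?_, ?_, ?_⟩
  · rintro (t | t)
    · exact hμ t
    · exact hμ' t
  · rw [Fintype.sum_sum_type]
    exact add_le_add hμK hμK'
  · rintro (t | t)
    · exact hg t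
    · exact hg' t
  · intro x
    rw [Fintype.sum_sum_type]
    exact add_le_add (hdom x) (hdom' x)

lemma DomF.sum {ι : Type*} (u : Finset ι) {N : ι → (J → ℝ) → ℝ} {K : ι → ℝ}
    (h : ∀ i ∈ u, DomF s r (N i) (K i)) :
    DomF s r (fun x => ∑ i ∈ u, N i x) (∑ i ∈ u, K i) := by
  classical
  induction u using Finset.induction_on with
  | empty => simpa using DomF.zero
  | insert a u ha ih =>
    simp only [Finset.sum_insert ha]
    exact (h a (Finset.mem_insert_self a u)).add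
      (ih fun i hi => h i (Finset.mem_insert_of_mem hi))

/-- passing to the unsigned matrix with repeated columns -/
lemma dom_unsigned {I : Type} [Fintype I] [DecidableEq I] {f : I → J → ℝ} {K : ℝ} (hs : 0 < s)
    (h : Dom s r f K) : Dom s r (unsigned f) (nΩ I ^ (r / s) * K) := by
  obtain ⟨S, hS, μ, g, hμ, hμK, hg, hdom⟩ := h
  set n := nΩ I with hn
  have hn0 : 0 < n := nΩ_pos
  refine ⟨S, hS, fun t => n ^ (r / s) * μ t, fun t j => n ^ (-(1 / s)) * g t j.1,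
    fun t => mul_nonneg (Real.rpow_nonneg hn0.le _) (hμ t), ?_, ?_, ?_⟩
  · rw [← Finset.mul_sum]
    exact mul_le_mul_of_nonneg_left hμK (Real.rpow_nonneg hn0.le _)
  · intro t
    have h1 := hg t
    unfold Ball at h1 ⊢
    rw [Fintype.sum_prod_type]
    have h2 : ∀ j, ∑ _ω : I → Bool, |n ^ (-(1 / s)) * g t j| ^ s = |g t j| ^ s := by
      intro j
      rw [abs_mul, abs_of_pos (Real.rpow_pos_of_pos hn0 _),
        Real.mul_rpow (Real.rpow_nonneg hn0.le _) (abs_nonneg _), ← Real.rpow_mul hn0.le]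
      have h3 : -(1 / s) * s = -1 := by field_simp
      rw [h3, Real.rpow_neg_one, ← one_mul (n⁻¹ * |g t j| ^ s), ← Finset.mul_sum]
      simp only [Finset.sum_const, Finset.card_univ, nsmul_eq_mul, one_mul]
      rw [← mul_assoc]
      change n * n⁻¹ * _ = _
      rw [mul_inv_cancel₀ hn0.ne', one_mul]
    simp only [h2]
    exact h1
  · intro x
    have h1 := hdom (fun j => ∑ ω, x (j, ω))
    have h2 : ∀ i, ∑ j : J × (I → Bool), unsigned f i j * x j = ∑ j, f i j * ∑ ω, x (j, ω) := by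
      intro i
      rw [Fintype.sum_prod_type]
      exact Finset.sum_congr rfl fun j _ => by simp only [unsigned, Finset.mul_sum]
    have h3 : ∀ t, ∑ j : J × (I → Bool), n ^ (-(1 / s)) * g t j.1 * x j
        = n ^ (-(1 / s)) * ∑ j, g t j * ∑ ω, x (j, ω) := by
      intro t
      rw [Fintype.sum_prod_type, Finset.mul_sum]
      refine Finset.sum_congr rfl fun j _ => ?_
      rw [← mul_assoc, Finset.mul_sum]
    simp only [h2, h3]
    refine h1.trans_eq (Finset.sum_congr rfl fun t _ => ?_)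
    rw [abs_mul, abs_of_pos (Real.rpow_pos_of_pos hn0 _),
      Real.mul_rpow (Real.rpow_nonneg hn0.le _) (abs_nonneg _), ← Real.rpow_mul hn0.le]
    have h4 : n ^ (r / s) * n ^ (-(1 / s) * r) = 1 := by
      rw [← Real.rpow_add hn0]
      have : r / s + -(1 / s) * r = 0 := by ring
      rw [this, Real.rpow_zero]
    calc μ t * |∑ j, g t j * ∑ ω, x (j, ω)| ^ r
        = (n ^ (r / s) * n ^ (-(1 / s) * r)) * (μ t * |∑ j, g t j * ∑ ω, x (j, ω)| ^ r) := by
          rw [h4, one_mul]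
      _ = _ := by ring

end DomF

end Pool.Agent.Lib.MP_b99895_an
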