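import Mathlib

set_option autoImplicit false

open scoped BigOperators

namespace Pool.Agent.Lib.MP_b99895_an

/-! ## Two elementary inequalities -/

lemma sum_rpow_le_rpow_sum {ι : Type*} (s : Finset ι) (f : ι → ℝ) {t : ℝ} (ht : 1 ≤ t)
    (hf : ∀ i ∈ s, 0 ≤ f i) : ∑ i ∈ s, f i ^ t ≤ (∑ i ∈ s, f i) ^ t := by
  classical
  induction s using Finset.induction_on with
  | empty => simp [Real.zero_rpow (by linarith : t ≠ 0)]
  | insert a s ha ih =>
    rw [Finset.sum_insert ha, Finset.sum_insert ha]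
    have h1 : 0 ≤ f a := hf a (Finset.mem_insert_self a s)
    have h2 : ∀ i ∈ s, 0 ≤ f i := fun i hi => hf i (Finset.mem_insert_of_mem hi)
    have h3 : 0 ≤ ∑ i ∈ s, f i := Finset.sum_nonneg h2
    have := Real.add_rpow_le_rpow_add h1 h3 ht
    have := ih h2
    linarith

lemma minkowski_sum {ι κ : Type*} (s : Finset ι) (u : Finset κ) (F : ι → κ → ℝ) {t : ℝ}
    (ht : 1 ≤ t) (hF : ∀ i ∈ s, ∀ k ∈ u, 0 ≤ F i k) :
    (∑ k ∈ u, (∑ i ∈ s, F i k) ^ t) ^ (1 / t) ≤ ∑ i ∈ s, (∑ k ∈ u, F i k ^ t) ^ (1 / t) := by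
  classical
  induction s using Finset.induction_on with
  | empty =>
    have ht0 : t ≠ 0 := by linarith
    simp [Real.zero_rpow ht0, Real.zero_rpow (inv_ne_zero ht0)]
  | insert a s ha ih =>
    rw [Finset.sum_insert ha]
    simp_rw [Finset.sum_insert ha]
    have h1 : ∀ k ∈ u, 0 ≤ F a k := hF a (Finset.mem_insert_self a s)
    have h2 : ∀ i ∈ s, ∀ k ∈ u, 0 ≤ F i k := fun i hi => hF i (Finset.mem_insert_of_mem hi)
    have h3 : ∀ k ∈ u, 0 ≤ ∑ i ∈ s, F i k := fun k hk => Finset.sum_nonneg fun i hi => h2 i hi k hk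
    have h4 := Real.Lp_add_le_of_nonneg u ht h1 h3
    have h5 := ih h2
    linarith

/-! ## Finite matrices -/

/-- `g` is in the unit ball of `ℓ_s(J)`. -/
def Ball {J : Type} [Fintype J] (s : ℝ) (g : J → ℝ) : Prop := ∑ j, |g j| ^ s ≤ 1

/-- Pietsch-type domination of the matrix `a` with a measure of total mass `≤ K` on the unit ball
of `ℓ_s`. -/
def Dom {I J : Type} [Fintype I] [Fintype J] (s r : ℝ) (a : I → J → ℝ) (K : ℝ) : Prop :=
  ∃ (S : Type) (_ : Fintype S) (μ : S → ℝ) (g : S → J → ℝ), (∀ t, 0 ≤ μ t) ∧ ∑ t, μ t ≤ K ∧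
    (∀ t, Ball s (g t)) ∧
    ∀ x : J → ℝ, ∑ i, |∑ j, a i j * x j| ^ r ≤ ∑ t, μ t * |∑ j, g t j * x j| ^ r

/-- Test vectors: a family `w` with weak `r`-norm `≤ 1` (in the dual of `ℓ_s`) such that
`∑_t ‖a w_t‖_r^r ≥ κ`. -/
def Low {I J : Type} [Fintype I] [Fintype J] (s r : ℝ) (a : I → J → ℝ) (κ : ℝ) : Prop :=
  ∃ (T : Type) (_ : Fintype T) (w : T → J → ℝ),
    (∀ g : J → ℝ, Ball s g → ∑ t, |∑ j, w t j * g j| ^ r ≤ 1) ∧
    κ ≤ ∑ t, ∑ i, |∑ j, a i j * w t j| ^ r

/-- Kronecker product of matrices. -/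
def kron {I J I' J' : Type} (a : I → J → ℝ) (b : I' → J' → ℝ) : I × I' → J × J' → ℝ :=
  fun i j => a i.1 j.1 * b i.2 j.2

section

variable {I J I' J' : Type} [Fintype I] [Fintype J] [Fintype I'] [Fintype J']

lemma kron_sum (a : J → ℝ) (b : J' → ℝ) (x : J × J' → ℝ) :
    ∑ j : J × J', a j.1 * b j.2 * x j = ∑ j, a j * ∑ j', b j' * x (j, j') := by
  rw [Fintype.sum_prod_type]
  refine Finset.sum_congr rfl fun j _ => ?_
  rw [Finset.mul_sum]
  exact Finset.sum_congr rfl fun j' _ => by ring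

lemma kron_sum' (a : J → ℝ) (b : J' → ℝ) (x : J × J' → ℝ) :
    ∑ j : J × J', a j.1 * b j.2 * x j = ∑ j', b j' * ∑ j, a j * x (j, j') := by
  rw [Fintype.sum_prod_type_right]
  refine Finset.sum_congr rfl fun j _ => ?_
  rw [Finset.mul_sum]
  exact Finset.sum_congr rfl fun j' _ => by ring

lemma Ball.kron {s : ℝ} {g : J → ℝ} {h : J' → ℝ} (hg : Ball s g) (hh : Ball s h) :
    Ball s (fun j : J × J' => g j.1 * h j.2) := by
  unfold Ball at *
  rw [Fintype.sum_prod_type]
  simp only [abs_mul]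
  have : ∀ j j', (|g j| * |h j'|) ^ s = |g j| ^ s * |h j'| ^ s := fun j j' =>
    Real.mul_rpow (abs_nonneg _) (abs_nonneg _)
  simp only [this, ← Finset.mul_sum]
  rw [← Finset.sum_mul]
  exact mul_le_one₀ hg (Finset.sum_nonneg fun _ _ => by positivity) hh

lemma Dom.kron {s r : ℝ} {a : I → J → ℝ} {b : I' → J' → ℝ} {K K' : ℝ} (hK : 0 ≤ K)
    (ha : Dom s r a K) (hb : Dom s r b K') : Dom s r (kron a b) (K * K') := by
  obtain ⟨S, hS, μ, g, hμ, hμK, hg, hdom⟩ := ha
  obtain ⟨S', hS', μ', g', hμ', hμK', hg', hdom'⟩ := hb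
  refine ⟨S × S', inferInstance, fun t => μ t.1 * μ' t.2, fun t j => g t.1 j.1 * g' t.2 j.2,
    fun t => mul_nonneg (hμ _) (hμ' _), ?_, fun t => (hg t.1).kron (hg' t.2), ?_⟩
  · rw [Fintype.sum_prod_type]
    simp only [← Finset.mul_sum]
    rw [← Finset.sum_mul]
    exact mul_le_mul hμK hμK' (Finset.sum_nonneg fun t _ => hμ' t) hK
  · intro x
    calc ∑ i : I × I', |∑ j, MP_b99895_an.kron a b i j * x j| ^ r
        = ∑ i', ∑ i, |∑ j, a i j * ∑ j', b i' j' * x (j, j')| ^ r := by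
          rw [Fintype.sum_prod_type_right]
          refine Finset.sum_congr rfl fun i' _ => Finset.sum_congr rfl fun i _ => ?_
          unfold MP_b99895_an.kron
          rw [kron_sum (fun j => a i j) (fun j' => b i' j')]
      _ ≤ ∑ i', ∑ t, μ t * |∑ j, g t j * ∑ j', b i' j' * x (j, j')| ^ r :=
          Finset.sum_le_sum fun i' _ => hdom _
      _ = ∑ t, μ t * ∑ i', |∑ j', b i' j' * ∑ j, g t j * x (j, j')| ^ r := by
          rw [Finset.sum_comm]
          refine Finset.sum_congr rfl fun t _ => ?_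
          rw [Finset.mul_sum]
          refine Finset.sum_congr rfl fun i' _ => ?_
          rw [← kron_sum (fun j => g t j) (fun j' => b i' j'),
            kron_sum' (fun j => g t j) (fun j' => b i' j')]
      _ ≤ ∑ t, μ t * ∑ t', μ' t' * |∑ j', g' t' j' * ∑ j, g t j * x (j, j')| ^ r :=
          Finset.sum_le_sum fun t _ => mul_le_mul_of_nonneg_left (hdom' _) (hμ t)
      _ = ∑ t : S × S', μ t.1 * μ' t.2 * |∑ j : J × J', g t.1 j.1 * g' t.2 j.2 * x j| ^ r := by
          rw [Fintype.sum_prod_type]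
          refine Finset.sum_congr rfl fun t _ => ?_
          rw [Finset.mul_sum]
          refine Finset.sum_congr rfl fun t' _ => ?_
          rw [kron_sum' (fun j => g t j) (fun j' => g' t' j'), mul_assoc]

/-- Homogeneous form of the weak norm bound. -/
lemma weak_homog {T : Type} [Fintype T] {s r : ℝ} (hs : 0 < s) (hr : 0 < r) {w : T → J → ℝ}
    (hw : ∀ g : J → ℝ, Ball s g → ∑ t, |∑ j, w t j * g j| ^ r ≤ 1) (g : J → ℝ) :
    ∑ t, |∑ j, w t j * g j| ^ r ≤ (∑ j, |g j| ^ s) ^ (r / s) := by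
  set A : ℝ := ∑ j, |g j| ^ s with hA
  have hA0 : 0 ≤ A := Finset.sum_nonneg fun _ _ => by positivity
  rcases hA0.eq_or_lt with h0 | hpos
  · -- `g = 0`
    have hg : ∀ j, g j = 0 := by
      intro j
      have h1 := (Finset.sum_eq_zero_iff_of_nonneg
        (fun j _ => Real.rpow_nonneg (abs_nonneg (g j)) s)).1 h0.symm j (Finset.mem_univ j)
      rw [Real.rpow_eq_zero (abs_nonneg _) hs.ne'] at h1
      exact abs_eq_zero.1 h1
    have : ∑ t, |∑ j, w t j * g j| ^ r = 0 := by
      refine Finset.sum_eq_zero fun t _ => ?_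
      simp [hg, Real.zero_rpow hr.ne']
    rw [this]
    positivity
  · set c : ℝ := A ^ (1 / s) with hc
    have hcpos : 0 < c := Real.rpow_pos_of_pos hpos _
    have hcs : c ^ s = A := by
      rw [hc, ← Real.rpow_mul hA0, one_div, inv_mul_cancel₀ hs.ne', Real.rpow_one]
    have hball : Ball s (fun j => g j / c) := by
      unfold Ball
      have : ∀ j, |g j / c| ^ s = |g j| ^ s / A := by
        intro j
        rw [abs_div, abs_of_pos hcpos, Real.div_rpow (abs_nonneg _) hcpos.le, hcs]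
      simp only [this, ← Finset.sum_div]
      rw [← hA, div_self hpos.ne']
    have h1 := hw _ hball
    have h2 : ∀ t, |∑ j, w t j * (g j / c)| ^ r = |∑ j, w t j * g j| ^ r / c ^ r := by
      intro t
      have : ∑ j, w t j * (g j / c) = (∑ j, w t j * g j) / c := by
        rw [Finset.sum_div]
        exact Finset.sum_congr rfl fun j _ => by ring
      rw [this, abs_div, abs_of_pos hcpos, Real.div_rpow (abs_nonneg _) hcpos.le]
    simp only [h2, ← Finset.sum_div] at h1
    rw [div_le_one (Real.rpow_pos_of_pos hcpos r)] at h1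
    refine h1.trans_eq ?_
    rw [hc, ← Real.rpow_mul hA0]
    congr 1
    ring

lemma Low.kron {s r : ℝ} (hs : 1 ≤ s) (hsr : s ≤ r) {a : I → J → ℝ} {b : I' → J' → ℝ} {κ κ' : ℝ}
    (hκ : 0 ≤ κ) (hκ' : 0 ≤ κ') (ha : Low s r a κ) (hb : Low s r b κ') :
    Low s r (kron a b) (κ * κ') := by
  obtain ⟨T, hT, w, hw, hκw⟩ := ha
  obtain ⟨T', hT', w', hw', hκw'⟩ := hb
  have hs0 : 0 < s := by linarith
  have hr0 : 0 < r := by linarith
  refine ⟨T × T', inferInstance, fun t j => w t.1 j.1 * w' t.2 j.2, ?_, ?_⟩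
  · intro g hg
    have ht : 1 ≤ r / s := by rwa [le_div_iff₀ hs0, one_mul]
    -- the partially integrated function
    set h : T' → J → ℝ := fun t' j => ∑ j', w' t' j' * g (j, j') with hh
    have e1 : ∑ t : T × T', |∑ j : J × J', w t.1 j.1 * w' t.2 j.2 * g j| ^ r
        = ∑ t', ∑ t, |∑ j, w t j * h t' j| ^ r := by
      rw [Fintype.sum_prod_type_right]
      refine Finset.sum_congr rfl fun t' _ => Finset.sum_congr rfl fun t _ => ?_
      rw [kron_sum (fun j => w t j) (fun j' => w' t' j')]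
    have e2 : ∑ t', ∑ t, |∑ j, w t j * h t' j| ^ r ≤ ∑ t', (∑ j, |h t' j| ^ s) ^ (r / s) :=
      Finset.sum_le_sum fun t' _ => weak_homog hs0 hr0 hw (h t')
    have e3 := minkowski_sum (Finset.univ : Finset J) (Finset.univ : Finset T')
      (fun j t' => |h t' j| ^ s) ht (fun _ _ _ _ => by positivity)
    have e4 : ∀ j, (∑ t', (|h t' j| ^ s) ^ (r / s)) ^ (1 / (r / s)) ≤ ∑ j', |g (j, j')| ^ s := by
      intro j
      have h1 : ∀ t', (|h t' j| ^ s) ^ (r / s) = |h t' j| ^ r := by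
        intro t'
        rw [← Real.rpow_mul (abs_nonneg _), mul_div_cancel₀ _ hs0.ne']
      simp only [h1]
      have h2 := weak_homog hs0 hr0 hw' (fun j' => g (j, j'))
      have h3 : 0 ≤ ∑ j', |g (j, j')| ^ s := Finset.sum_nonneg fun _ _ => by positivity
      have h4 := Real.rpow_le_rpow (Finset.sum_nonneg fun _ _ => by positivity) h2
        (by positivity : (0 : ℝ) ≤ 1 / (r / s))
      refine h4.trans_eq ?_
      rw [← Real.rpow_mul h3, mul_one_div, div_self (by positivity), Real.rpow_one]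
    have e5 : (∑ t', (∑ j, |h t' j| ^ s) ^ (r / s)) ^ (1 / (r / s)) ≤ 1 := by
      refine e3.trans ((Finset.sum_le_sum fun j _ => e4 j).trans ?_)
      unfold Ball at hg
      rwa [Fintype.sum_prod_type] at hg
    have e6 : ∑ t', (∑ j, |h t' j| ^ s) ^ (r / s) ≤ 1 := by
      have hnn : 0 ≤ ∑ t', (∑ j, |h t' j| ^ s) ^ (r / s) :=
        Finset.sum_nonneg fun _ _ => Real.rpow_nonneg
          (Finset.sum_nonneg fun _ _ => by positivity) _
      by_contra hgt
      push Not at hgt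
      have := Real.one_lt_rpow hgt (by positivity : (0 : ℝ) < 1 / (r / s))
      linarith
    rw [e1]
    exact e2.trans e6
  · have e1 : ∑ t : T × T', ∑ i : I × I',
        |∑ j : J × J', MP_b99895_an.kron a b i j * (w t.1 j.1 * w' t.2 j.2)| ^ r
        = (∑ t, ∑ i, |∑ j, a i j * w t j| ^ r) * ∑ t', ∑ i', |∑ j', b i' j' * w' t' j'| ^ r := by
      rw [Fintype.sum_prod_type, Finset.sum_mul]
      refine Finset.sum_congr rfl fun t _ => ?_
      rw [Finset.mul_sum]
      refine Finset.sum_congr rfl fun t' _ => ?_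
      rw [Fintype.sum_prod_type, Finset.sum_mul]
      refine Finset.sum_congr rfl fun i _ => ?_
      rw [Finset.mul_sum]
      refine Finset.sum_congr rfl fun i' _ => ?_
      rw [← Real.mul_rpow (abs_nonneg _) (abs_nonneg _), ← abs_mul]
      congr 2
      unfold MP_b99895_an.kron
      rw [Fintype.sum_prod_type, Finset.sum_mul]
      refine Finset.sum_congr rfl fun j _ => ?_
      rw [Finset.mul_sum]
      exact Finset.sum_congr rfl fun j' _ => by ring
    rw [e1]
    exact mul_le_mul hκw hκw' hκ' (hκ.trans hκw)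

end

/-- Powers: a pair of matrices `|b| ≤ a` with a domination bound `K` for `a` and a lower bound `κ`
for `b` can be tensorised. -/
lemma exists_power {I J : Type} [Fintype I] [Fintype J] [Nonempty J] {s r : ℝ} (hs : 1 ≤ s)
    (hsr : s ≤ r) {a b : I → J → ℝ} (hab : ∀ i j, |b i j| ≤ a i j) {K κ : ℝ} (hK : 0 ≤ K)
    (hκ : 0 ≤ κ) (ha : Dom s r a K) (hb : Low s r b κ) (M : ℕ) :
    ∃ (I' J' : Type) (_ : Fintype I') (_ : Fintype J') (_ : Nonempty J') (a' b' : I' → J' → ℝ),
      Fintype.card I' = Fintype.card I ^ M ∧ (∀ i j, |b' i j| ≤ a' i j) ∧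
      Dom s r a' (K ^ M) ∧ Low s r b' (κ ^ M) := by
  have hs0 : 0 < s := by linarith
  have hr0 : 0 < r := by linarith
  induction M with
  | zero =>
    refine ⟨Unit, Unit, inferInstance, inferInstance, inferInstance, fun _ _ => 1, fun _ _ => 1,
      by simp, by simp, ?_, ?_⟩
    · refine ⟨Unit, inferInstance, fun _ => 1, fun _ _ => 1, fun _ => zero_le_one, by simp,
        fun _ => by simp [Ball], fun x => by simp⟩
    · refine ⟨Unit, inferInstance, fun _ _ => 1, ?_, by simp⟩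
      intro g hg
      simp only [Ball, Finset.univ_unique, Finset.sum_singleton, one_mul] at hg ⊢
      have h1 : |g default| ≤ 1 := by
        by_contra hgt
        push Not at hgt
        have := Real.one_lt_rpow hgt hs0
        linarith
      exact Real.rpow_le_one (abs_nonneg _) h1 hr0.le
  | succ M ih =>
    obtain ⟨I', J', hI', hJ', hne, a', b', hcard, hab', ha', hb'⟩ := ih
    refine ⟨I' × I, J' × J, inferInstance, inferInstance, inferInstance, kron a' a, kron b' b,
      ?_, ?_, ?_, ?_⟩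
    · rw [Fintype.card_prod, hcard, pow_succ]
    · intro i j
      unfold kron
      rw [abs_mul]
      exact mul_le_mul (hab' _ _) (hab _ _) (abs_nonneg _) ((abs_nonneg _).trans (hab' _ _))
    · rw [pow_succ]
      exact ha'.kron (pow_nonneg hK M) ha
    · rw [pow_succ]
      exact hb'.kron hs hsr (pow_nonneg hκ M) hκ hb

end Pool.Agent.Lib.MP_b99895_an
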