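import Mathlib
import Pool.Agent.Lib.MP_b99895_an.Defs
import Pool.Agent.Lib.MP_b99895_an.Finite

set_option autoImplicit false

open MeasureTheory
open scoped ENNReal BigOperators

namespace Pool.Agent.Lib.MP_b99895_an

/-! ## Step functions on `[0,1]` -/

section Cell

variable (J : Type) [Fintype J] [Nonempty J]

/-- The partition of `[0,1)` into `|J|` intervals, labelled by `J`. -/
noncomputable def cell (t : ℝ) : J :=
  (Fintype.equivFin J).symm
    ⟨⌊t * Fintype.card J⌋₊ % Fintype.card J, Nat.mod_lt _ Fintype.card_pos⟩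

variable {J}

lemma measurable_cell_comp {β : Type*} [MeasurableSpace β] (F : J → β) :
    Measurable fun t => F (cell J t) := by
  have h1 : Measurable fun k : ℕ => F ((Fintype.equivFin J).symm
      ⟨k % Fintype.card J, Nat.mod_lt _ Fintype.card_pos⟩) := measurable_from_nat
  exact h1.comp (Nat.measurable_floor.comp (measurable_id.mul_const _))

lemma measurableSet_cell (j : J) : MeasurableSet {t | cell J t = j} := by
  classical
  have h := measurable_cell_comp (J := J) (fun i => (decide (i = j)))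
  have h2 : {t | cell J t = j} = (fun t => decide (cell J t = j)) ⁻¹' {true} := by
    ext t; simp
  rw [h2]
  exact h (measurableSet_singleton _)

lemma leb_cell (j : J) : leb.real {t | cell J t = j} = 1 / Fintype.card J := by
  have hn : (0 : ℝ) < Fintype.card J := by exact_mod_cast Fintype.card_pos (α := J)
  set n : ℝ := (Fintype.card J : ℝ) with hndef
  set k : ℕ := (Fintype.equivFin J j : ℕ) with hk
  have hkn : k < Fintype.card J := (Fintype.equivFin J j).2
  have hleb : leb = volume.restrict (Set.Ico (0 : ℝ) 1) :=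
    (Measure.restrict_congr_set Ico_ae_eq_Icc).symm
  have hset : {t | cell J t = j} ∩ Set.Ico (0 : ℝ) 1 = Set.Ico ((k : ℝ) / n) ((k + 1) / n) := by
    ext t
    simp only [Set.mem_inter_iff, Set.mem_ofPred_eq, Set.mem_Ico]
    constructor
    · rintro ⟨h, h0, h1⟩
      have hfl : ⌊t * n⌋₊ < Fintype.card J := by
        rw [Nat.floor_lt (by positivity)]
        calc t * n < 1 * n := by nlinarith
          _ = _ := by simp [hndef]
      have h2 : ⌊t * n⌋₊ = k := by
        have h3 := congrArg (fun i => (Fintype.equivFin J i : ℕ)) h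
        simp only [cell, Equiv.apply_symm_apply] at h3
        rw [← hk, Nat.mod_eq_of_lt hfl] at h3
        exact h3
      rw [Nat.floor_eq_iff (by positivity)] at h2
      constructor
      · rw [div_le_iff₀ hn]; exact h2.1
      · rw [lt_div_iff₀ hn]; exact h2.2
    · rintro ⟨h0, h1⟩
      rw [div_le_iff₀ hn] at h0
      rw [lt_div_iff₀ hn] at h1
      have ht0 : 0 ≤ t := by
        by_contra hcon
        push Not at hcon
        have : t * n < 0 := mul_neg_of_neg_of_pos hcon hn
        have : (0 : ℝ) ≤ k := Nat.cast_nonneg k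
        linarith
      have hfl : ⌊t * n⌋₊ = k := by
        rw [Nat.floor_eq_iff (by positivity)]
        exact ⟨h0, h1⟩
      refine ⟨?_, ht0, ?_⟩
      · apply (Fintype.equivFin J).injective
        apply Fin.ext
        simp only [cell, Equiv.apply_symm_apply]
        rw [← hk, hfl, Nat.mod_eq_of_lt hkn]
      · by_contra hcon
        push Not at hcon
        have h2 : n ≤ t * n := by nlinarith
        have h3 : (k : ℝ) + 1 ≤ n := by rw [hndef]; exact_mod_cast hkn
        linarith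
  rw [hleb, measureReal_def, Measure.restrict_apply (measurableSet_cell j), hset, Real.volume_Ico]
  rw [ENNReal.toReal_ofReal]
  · ring
  · have : (k + 1 : ℝ) / n - k / n = 1 / n := by ring
    rw [this]; positivity

lemma integral_cell (F : J → ℝ) :
    ∫ t, F (cell J t) ∂leb = (∑ j, F j) / Fintype.card J := by
  classical
  have h1 : ∀ t, F (cell J t) = ∑ j, {t | cell J t = j}.indicator (fun _ => F j) t := by
    intro t
    rw [Finset.sum_eq_single (cell J t)]
    · simp
    · intro j _ hj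
      simp [Ne.symm hj]
    · simp
  simp_rw [h1]
  rw [integral_finsetSum]
  · rw [Finset.sum_div]
    refine Finset.sum_congr rfl fun j _ => ?_
    rw [integral_indicator_const _ (measurableSet_cell j), leb_cell, smul_eq_mul]
    ring
  · intro j _
    exact (integrable_const _).indicator (measurableSet_cell j)

lemma memLp_cell (p : ℝ≥0∞) (F : J → ℝ) : MemLp (fun t => F (cell J t)) p leb := by
  refine MemLp.of_bound (measurable_cell_comp F).aestronglyMeasurable (∑ j, |F j|) ?_
  refine Filter.Eventually.of_forall fun t => ?_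
  rw [Real.norm_eq_abs]
  exact Finset.single_le_sum (f := fun j => |F j|) (fun j _ => abs_nonneg _)
    (Finset.mem_univ (cell J t))

/-- The isometric embedding of `ℓ_p(J)` into `L^p[0,1]`. -/
noncomputable def emb (p : ℝ≥0∞) : (J → ℝ) →ₗ[ℝ] Lp ℝ p leb where
  toFun x := (memLp_cell p fun j => (Fintype.card J : ℝ) ^ (1 / p.toReal) * x j).toLp
  map_add' x y := by
    rw [← MemLp.toLp_add]
    apply MemLp.toLp_congr
    refine Filter.Eventually.of_forall fun t => ?_
    simp [mul_add]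
  map_smul' c x := by
    rw [RingHom.id_apply, ← MemLp.toLp_const_smul]
    apply MemLp.toLp_congr
    refine Filter.Eventually.of_forall fun t => ?_
    simp only [Pi.smul_apply, smul_eq_mul]
    ring

lemma coeFn_emb (p : ℝ≥0∞) (x : J → ℝ) :
    emb p x =ᵐ[leb] fun t => (Fintype.card J : ℝ) ^ (1 / p.toReal) * x (cell J t) :=
  MemLp.coeFn_toLp (memLp_cell p fun j => (Fintype.card J : ℝ) ^ (1 / p.toReal) * x j)

lemma norm_emb {p : ℝ≥0∞} (hp0 : p ≠ 0) (hp : p ≠ ∞) (x : J → ℝ) :
    ‖emb p x‖ = (∑ j, |x j| ^ p.toReal) ^ (1 / p.toReal) := by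
  have hn : (0 : ℝ) < Fintype.card J := by exact_mod_cast Fintype.card_pos (α := J)
  have hp1 : 0 < p.toReal := ENNReal.toReal_pos hp0 hp
  have hmem : MemLp (fun t => (Fintype.card J : ℝ) ^ (1 / p.toReal) * x (cell J t)) p leb :=
    memLp_cell p fun j => (Fintype.card J : ℝ) ^ (1 / p.toReal) * x j
  change ‖hmem.toLp‖ = _
  rw [Lp.norm_toLp, MemLp.eLpNorm_eq_integral_rpow_norm hp0 hp hmem,
    ENNReal.toReal_ofReal (by positivity)]
  have h1 : ∀ t : ℝ, ‖(Fintype.card J : ℝ) ^ (1 / p.toReal) * x (cell J t)‖ ^ p.toReal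
      = (fun j => (Fintype.card J : ℝ) * |x j| ^ p.toReal) (cell J t) := by
    intro t
    simp only
    rw [norm_mul, Real.mul_rpow (norm_nonneg _) (norm_nonneg _), Real.norm_eq_abs,
      Real.norm_eq_abs, abs_of_nonneg (Real.rpow_nonneg hn.le _), ← Real.rpow_mul hn.le,
      one_div, inv_mul_cancel₀ hp1.ne', Real.rpow_one]
  simp_rw [h1]
  rw [integral_cell (fun j => (Fintype.card J : ℝ) * |x j| ^ p.toReal), ← Finset.mul_sum,
    mul_div_cancel_left₀ _ hn.ne', one_div]

lemma emb_nonneg (p : ℝ≥0∞) {x : J → ℝ} (hx : ∀ j, 0 ≤ x j) : 0 ≤ emb p x := by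
  rw [← Lp.coeFn_nonneg]
  filter_upwards [coeFn_emb p x] with t ht
  rw [ht]
  have := hx (cell J t)
  simp only [Pi.zero_apply]
  positivity

end Cell

/-! ## The functionals -/

open Classical in
/-- unit vectors -/
noncomputable def uv {J : Type} (j : J) : J → ℝ := fun k => if j = k then 1 else 0

lemma sum_uv {J : Type} [Fintype J] (g : J → ℝ) (j : J) : ∑ k, g k * uv j k = g j := by
  classical
  rw [Finset.sum_eq_single j]
  · simp [uv]
  · intro k _ hk
    simp [uv, Ne.symm hk]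
  · simp

lemma emb_eq_sum {J : Type} [Fintype J] [Nonempty J] (p : ℝ≥0∞) (g : J → ℝ) :
    emb p g = ∑ j, g j • emb p (uv j) := by
  classical
  have h := LinearMap.pi_apply_eq_sum_univ (emb p) g
  rw [h]
  refine Finset.sum_congr rfl fun j _ => ?_
  have huv : (fun k => if j = k then (1 : ℝ) else 0) = uv j := by
    funext k
    unfold uv
    by_cases hjk : j = k
    · rw [if_pos hjk]
    · rw [if_neg hjk]
  rw [huv]

section Func

variable {J : Type} [Fintype J] [Nonempty J] (p s : ℝ≥0∞) [Fact (1 ≤ p)] [Fact (1 ≤ s)]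
  [ENNReal.HolderConjugate s p]

/-- The functional on `L^p` induced by `g ∈ ℓ_s(J)`, where `s` is conjugate to `p`. -/
noncomputable def func (g : J → ℝ) : Lp ℝ p leb →L[ℝ] ℝ :=
  (ContinuousLinearMap.mul ℝ ℝ).lpPairing leb s p (emb s g)

lemma func_eq_integral (g : J → ℝ) (f : Lp ℝ p leb) :
    func p s g f = ∫ t, emb s g t * f t ∂leb := by
  unfold func
  rw [ContinuousLinearMap.lpPairing_eq_integral]
  rfl

lemma func_apply (g : J → ℝ) (f : Lp ℝ p leb) :
    func p s g f = ∑ j, g j * func p s (uv j) f := by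
  unfold func
  rw [emb_eq_sum s g, map_sum]
  simp

lemma func_nonneg {g : J → ℝ} (hg : ∀ j, 0 ≤ g j) {f : Lp ℝ p leb} (hf : 0 ≤ f) :
    0 ≤ func p s g f := by
  rw [func_eq_integral]
  have h1 := (Lp.coeFn_nonneg _).2 (emb_nonneg s hg)
  have h2 := (Lp.coeFn_nonneg _).2 hf
  refine integral_nonneg_of_ae ?_
  filter_upwards [h1, h2] with t h1 h2
  exact mul_nonneg h1 h2

lemma func_emb (g x : J → ℝ) : func p s g (emb p x) = ∑ j, g j * x j := by
  have hn : (0 : ℝ) < Fintype.card J := by exact_mod_cast Fintype.card_pos (α := J)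
  have hconj : 1 / s.toReal + 1 / p.toReal = 1 := by
    have h := ENNReal.HolderConjugate.inv_add_inv_eq_one s p
    have h2 := congrArg ENNReal.toReal h
    rw [ENNReal.toReal_add, ENNReal.toReal_inv, ENNReal.toReal_inv, ENNReal.toReal_one] at h2
    · simpa using h2
    · rw [ENNReal.inv_ne_top]; have := Fact.out (p := 1 ≤ s); positivity
    · rw [ENNReal.inv_ne_top]; have := Fact.out (p := 1 ≤ p); positivity
  rw [func_eq_integral]
  have h1 : ∫ t, emb s g t * emb p x t ∂leb
      = ∫ t, (fun j => (Fintype.card J : ℝ) * (g j * x j)) (cell J t) ∂leb := by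
    refine integral_congr_ae ?_
    filter_upwards [coeFn_emb s g, coeFn_emb p x] with t h1 h2
    rw [h1, h2]
    have h3 : (Fintype.card J : ℝ) ^ (1 / s.toReal) * (Fintype.card J : ℝ) ^ (1 / p.toReal)
        = Fintype.card J := by
      rw [← Real.rpow_add hn, hconj, Real.rpow_one]
    calc _ = ((Fintype.card J : ℝ) ^ (1 / s.toReal) * (Fintype.card J : ℝ) ^ (1 / p.toReal))
        * (g (cell J t) * x (cell J t)) := by ring
      _ = _ := by rw [h3]
  rw [h1, integral_cell (fun j => (Fintype.card J : ℝ) * (g j * x j)), ← Finset.mul_sum,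
    mul_div_cancel_left₀ _ hn.ne']

lemma norm_func_le (hs0 : s ≠ 0) (hs : s ≠ ∞) (g : J → ℝ) :
    ‖func p s g‖ ≤ (∑ j, |g j| ^ s.toReal) ^ (1 / s.toReal) := by
  rw [← norm_emb hs0 hs g]
  refine ContinuousLinearMap.opNorm_le_bound _ (norm_nonneg _) fun f => ?_
  unfold func
  have h1 := ContinuousLinearMap.norm_holder_apply_apply_le (r := 1) (ContinuousLinearMap.mul ℝ ℝ)
    (emb s g) f
  have h2 : ‖ContinuousLinearMap.mul ℝ ℝ‖ ≤ 1 := ContinuousLinearMap.opNorm_mul_le ℝ ℝ
  rw [ContinuousLinearMap.lpPairing_eq_integral]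
  have h3 : ∫ x, (ContinuousLinearMap.mul ℝ ℝ) (emb s g x) (f x) ∂leb
      = ∫ x, (ContinuousLinearMap.mul ℝ ℝ).holder 1 (emb s g) f x ∂leb :=
    integral_congr_ae ((ContinuousLinearMap.mul ℝ ℝ).coeFn_holder _ _).symm
  rw [h3]
  refine (norm_integral_le_integral_norm _).trans ?_
  rw [← L1.norm_eq_integral_norm]
  refine h1.trans ?_
  calc _ ≤ 1 * ‖emb s g‖ * ‖f‖ := by gcongr
    _ = _ := by ring

lemma norm_func_le_one (hs0 : s ≠ 0) (hs : s ≠ ∞) {g : J → ℝ} (hg : Ball s.toReal g) :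
    ‖func p s g‖ ≤ 1 := by
  refine (norm_func_le p s hs0 hs g).trans ?_
  have hs1 : 0 < s.toReal := ENNReal.toReal_pos hs0 hs
  exact Real.rpow_le_one (Finset.sum_nonneg fun _ _ => by positivity) hg (by positivity)

end Func

/-! ## The operator attached to a matrix -/

section Opr

variable {I J : Type} [Fintype I] [Nonempty I] [Fintype J] [Nonempty J]
  (p s q : ℝ≥0∞) [Fact (1 ≤ p)] [Fact (1 ≤ s)] [Fact (1 ≤ q)] [ENNReal.HolderConjugate s p]

/-- The operator `L^p → ℓ_p(J) → ℓ_q(I) → L^q` given by the matrix `a`. -/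
noncomputable def opr (a : I → J → ℝ) : Lp ℝ p leb →L[ℝ] Lp ℝ q leb :=
  (LinearMap.toContinuousLinearMap (emb q : (I → ℝ) →ₗ[ℝ] Lp ℝ q leb)) ∘L
    (ContinuousLinearMap.pi fun i => func p s (a i))

lemma opr_apply (a : I → J → ℝ) (f : Lp ℝ p leb) :
    opr p s q a f = emb q (fun i => func p s (a i) f) := rfl

lemma opr_emb (a : I → J → ℝ) (x : J → ℝ) :
    opr p s q a (emb p x) = emb q (fun i => ∑ j, a i j * x j) := by
  rw [opr_apply]
  simp only [func_emb]

lemma func_mono {g h : J → ℝ} (hgh : ∀ j, g j ≤ h j) {f : Lp ℝ p leb} (hf : 0 ≤ f) :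
    func p s g f ≤ func p s h f := by
  rw [← sub_nonneg]
  have h1 : func p s h f - func p s g f = func p s (h - g) f := by
    unfold func
    rw [map_sub, map_sub]
    rfl
  rw [h1]
  exact func_nonneg p s (fun j => sub_nonneg.2 (hgh j)) hf

lemma func_neg (g : J → ℝ) (f : Lp ℝ p leb) : func p s (-g) f = - func p s g f := by
  unfold func
  rw [map_neg, map_neg]
  rfl

lemma emb_mono {x y : I → ℝ} (h : ∀ i, x i ≤ y i) : emb q x ≤ emb q y := by
  rw [← sub_nonneg, ← map_sub]
  exact emb_nonneg q fun j => sub_nonneg.2 (h j)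

lemma opr_mono {a b : I → J → ℝ} (h : ∀ i j, a i j ≤ b i j) : OpLE (opr p s q a) (opr p s q b) := by
  intro f hf
  rw [opr_apply, opr_apply]
  exact emb_mono q fun i => func_mono p s (h i) hf

lemma opr_neg (a : I → J → ℝ) : opr p s q (fun i j => - a i j) = - opr p s q a := by
  ext1 f
  rw [neg_apply, opr_apply, opr_apply, ← map_neg]
  congr 1
  funext i
  exact func_neg p s (a i) f

lemma opr_zero : opr p s q (fun (_ : I) (_ : J) => (0 : ℝ)) = 0 := by
  ext1 f
  rw [opr_apply, zero_apply]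
  have : (fun i : I => func p s (fun _ : J => (0 : ℝ)) f) = 0 := by
    funext i
    have h0 : (fun _ : J => (0 : ℝ)) = 0 := rfl
    unfold func
    rw [h0, map_zero, map_zero]
    rfl
  rw [this, map_zero]

lemma opr_nonneg {a : I → J → ℝ} (h : ∀ i j, 0 ≤ a i j) : OpLE 0 (opr p s q a) := by
  have := opr_mono p s q (a := fun (_ : I) (_ : J) => (0 : ℝ)) (b := a) h
  rwa [opr_zero] at this

end Opr

/-! ## Summing bounds -/

section Weak

variable {X Y : Type*} [NormedAddCommGroup X] [NormedSpace ℝ X]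
  [NormedAddCommGroup Y] [NormedSpace ℝ Y]

lemma weak_bddAbove {r : ℝ} (hr : 0 < r) {n : ℕ} (x : Fin n → X) :
    BddAbove (Set.range fun φ : Metric.closedBall (0 : StrongDual ℝ X) 1 =>
      (∑ k, |(φ : StrongDual ℝ X) (x k)| ^ r) ^ (1 / r)) := by
  refine ⟨(∑ k, ‖x k‖ ^ r) ^ (1 / r), ?_⟩
  rintro _ ⟨φ, rfl⟩
  have hφ : ‖(φ : StrongDual ℝ X)‖ ≤ 1 := mem_closedBall_zero_iff.1 φ.2
  simp only
  gcongr with k
  rw [← Real.norm_eq_abs]
  exact (ContinuousLinearMap.le_opNorm _ _).trans
    (mul_le_of_le_one_left (norm_nonneg _) hφ)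

lemma le_weakNorm {r : ℝ} (hr : 0 < r) {n : ℕ} (x : Fin n → X) (φ : StrongDual ℝ X)
    (hφ : ‖φ‖ ≤ 1) : (∑ k, |φ (x k)| ^ r) ^ (1 / r) ≤ weakNorm r x :=
  le_ciSup (weak_bddAbove hr x) ⟨φ, by simpa using hφ⟩

lemma weakNorm_nonneg {r : ℝ} (hr : 0 < r) {n : ℕ} (x : Fin n → X) : 0 ≤ weakNorm r x := by
  refine le_trans ?_ (le_weakNorm hr x 0 (by simp))
  exact Real.rpow_nonneg (Finset.sum_nonneg fun _ _ => by positivity) _

lemma weakNorm_le {r : ℝ} {n : ℕ} (x : Fin n → X) {M : ℝ}
    (h : ∀ φ : StrongDual ℝ X, ‖φ‖ ≤ 1 → (∑ k, |φ (x k)| ^ r) ^ (1 / r) ≤ M) :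
    weakNorm r x ≤ M := by
  have : Nonempty (Metric.closedBall (0 : StrongDual ℝ X) 1) := ⟨⟨0, by simp⟩⟩
  exact ciSup_le fun φ => h φ (mem_closedBall_zero_iff.1 φ.2)

lemma piNorm_le {r : ℝ} {T : X →L[ℝ] Y} {C : ℝ} (h : SummingBound r T C) : piNorm r T ≤ C :=
  csInf_le ⟨0, fun _ h => h.1⟩ h

lemma piNorm_nonneg (r : ℝ) (T : X →L[ℝ] Y) : 0 ≤ piNorm r T :=
  Real.sInf_nonneg fun _ h => h.1

lemma piNorm_bound {r : ℝ} (hr : 0 < r) {T : X →L[ℝ] Y} (h : IsSumming r T) :
    SummingBound r T (piNorm r T) := by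
  refine ⟨piNorm_nonneg r T, fun n x => ?_⟩
  obtain ⟨C, hC⟩ := h
  have hw := weakNorm_nonneg hr x
  rcases hw.eq_or_lt with h0 | hpos
  · have := hC.2 n x
    rw [← h0, mul_zero] at this ⊢
    exact this
  · rw [← div_le_iff₀ hpos]
    refine le_csInf ⟨C, hC⟩ fun C' hC' => ?_
    rw [div_le_iff₀ hpos]
    exact hC'.2 n x

lemma SummingBound.fintype {r : ℝ} {T : X →L[ℝ] Y} {C : ℝ} (h : SummingBound r T C)
    {ι : Type} [Fintype ι] (x : ι → X) {W : ℝ}
    (hW : ∀ φ : StrongDual ℝ X, ‖φ‖ ≤ 1 → (∑ k, |φ (x k)| ^ r) ^ (1 / r) ≤ W) :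
    (∑ k, ‖T (x k)‖ ^ r) ^ (1 / r) ≤ C * W := by
  let e := Fintype.equivFin ι
  have h1 := h.2 _ (fun k => x (e.symm k))
  rw [e.symm.sum_comp (fun i => ‖T (x i)‖ ^ r)] at h1
  refine h1.trans (mul_le_mul_of_nonneg_left ?_ h.1)
  refine weakNorm_le _ fun φ hφ => ?_
  rw [e.symm.sum_comp (fun i => |φ (x i)| ^ r)]
  exact hW φ hφ

end Weak

section Main

variable {I J : Type} [Fintype I] [Nonempty I] [Fintype J] [Nonempty J]
  {p s q : ℝ≥0∞} [Fact (1 ≤ p)] [Fact (1 ≤ s)] [Fact (1 ≤ q)] [ENNReal.HolderConjugate s p]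

/-- The matrix domination gives an upper bound of the summing norm. -/
lemma summingBound_of_dom {r K : ℝ} (hs : s ≠ ∞) (hq : q ≠ ∞) (hqr : q.toReal ≤ r)
    {a : I → J → ℝ} (ha : Dom s.toReal r a K) (hK : 0 ≤ K) :
    SummingBound r (opr p s q a)
      (((Fintype.card I : ℝ) ^ (r / q.toReal - 1) * K) ^ (1 / r)) := by
  have hn : (0 : ℝ) < Fintype.card I := by exact_mod_cast Fintype.card_pos (α := I)
  have hq1 : (1 : ℝ≥0∞) ≤ q := Fact.out
  have hs1 : (1 : ℝ≥0∞) ≤ s := Fact.out
  have hq0 : q ≠ 0 := (zero_lt_one.trans_le hq1).ne'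
  have hs0 : s ≠ 0 := (zero_lt_one.trans_le hs1).ne'
  have hqt : 0 < q.toReal := ENNReal.toReal_pos hq0 hq
  have hr0 : 0 < r := hqt.trans_le hqr
  have hrq : 1 ≤ r / q.toReal := by rwa [le_div_iff₀ hqt, one_mul]
  refine ⟨by positivity, fun n x => ?_⟩
  obtain ⟨S, hS, μ, g, hμ, hμK, hg, hdom⟩ := ha
  set W := weakNorm r x with hW
  have hW0 : 0 ≤ W := weakNorm_nonneg hr0 x
  have key : ∑ k, ‖opr p s q a (x k)‖ ^ r ≤
      (Fintype.card I : ℝ) ^ (r / q.toReal - 1) * K * W ^ r := by
    have h1 : ∀ k, ‖opr p s q a (x k)‖ ^ r ≤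
        (Fintype.card I : ℝ) ^ (r / q.toReal - 1) * ∑ t, μ t * |func p s (g t) (x k)| ^ r := by
      intro k
      have h2 : ‖opr p s q a (x k)‖ ^ r
          = (∑ i, |func p s (a i) (x k)| ^ q.toReal) ^ (r / q.toReal) := by
        rw [opr_apply, norm_emb hq0 hq, ← Real.rpow_mul (Finset.sum_nonneg fun _ _ => by positivity)]
        congr 1
        field_simp
      rw [h2]
      refine (Real.rpow_sum_le_const_mul_sum_rpow_of_nonneg Finset.univ hrq
        (fun i _ => by positivity)).trans ?_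
      rw [Finset.card_univ]
      refine mul_le_mul_of_nonneg_left ?_ (by positivity)
      have h3 : ∀ i, (|func p s (a i) (x k)| ^ q.toReal) ^ (r / q.toReal)
          = |∑ j, a i j * func p s (uv j) (x k)| ^ r := by
        intro i
        rw [← Real.rpow_mul (abs_nonneg _), ← func_apply]
        congr 1
        field_simp
      simp only [h3]
      refine (hdom _).trans_eq ?_
      refine Finset.sum_congr rfl fun t _ => ?_
      rw [← func_apply]
    calc ∑ k, ‖opr p s q a (x k)‖ ^ r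
        ≤ ∑ k, (Fintype.card I : ℝ) ^ (r / q.toReal - 1) *
            ∑ t, μ t * |func p s (g t) (x k)| ^ r := Finset.sum_le_sum fun k _ => h1 k
      _ = (Fintype.card I : ℝ) ^ (r / q.toReal - 1) *
            ∑ t, μ t * ∑ k, |func p s (g t) (x k)| ^ r := by
          rw [← Finset.mul_sum, Finset.sum_comm]
          simp only [Finset.mul_sum]
      _ ≤ (Fintype.card I : ℝ) ^ (r / q.toReal - 1) * ∑ t, μ t * W ^ r := by
          gcongr with t _
          · exact hμ t
          · have h4 := le_weakNorm hr0 x (func p s (g t)) (norm_func_le_one p s hs0 hs (hg t))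
            rw [← hW] at h4
            have h5 := Real.rpow_le_rpow (by positivity) h4 hr0.le
            rwa [← Real.rpow_mul (Finset.sum_nonneg fun _ _ => by positivity),
              one_div, inv_mul_cancel₀ hr0.ne', Real.rpow_one] at h5
      _ = (Fintype.card I : ℝ) ^ (r / q.toReal - 1) * ((∑ t, μ t) * W ^ r) := by
          rw [Finset.sum_mul]
      _ ≤ (Fintype.card I : ℝ) ^ (r / q.toReal - 1) * (K * W ^ r) := by gcongr
      _ = _ := by ring
  have h6 := Real.rpow_le_rpow (Finset.sum_nonneg fun _ _ => by positivity) key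
    (by positivity : (0 : ℝ) ≤ 1 / r)
  refine h6.trans_eq ?_
  rw [Real.mul_rpow (by positivity) (by positivity), ← Real.rpow_mul hW0, mul_one_div,
    div_self hr0.ne', Real.rpow_one]

/-- Duality: the coefficients of a norm-one functional on `L^p` along the step functions are in
the unit ball of `ℓ_s`. -/
lemma ball_of_norm_le (hp : p ≠ ∞) (hs : s ≠ ∞) (φ : StrongDual ℝ (Lp ℝ p leb)) (hφ : ‖φ‖ ≤ 1) :
    Ball s.toReal (fun j : J => φ (emb p (uv j))) := by
  have hp1 : (1 : ℝ≥0∞) ≤ p := Fact.out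
  have hs1 : (1 : ℝ≥0∞) ≤ s := Fact.out
  have hp0 : p ≠ 0 := (zero_lt_one.trans_le hp1).ne'
  have hs0 : s ≠ 0 := (zero_lt_one.trans_le hs1).ne'
  have hpt : 0 < p.toReal := ENNReal.toReal_pos hp0 hp
  have hst : 0 < s.toReal := ENNReal.toReal_pos hs0 hs
  have hconj : s.toReal.HolderConjugate p.toReal := ENNReal.HolderConjugate.toReal_of_ne_top hs hp
  set g : J → ℝ := fun j => φ (emb p (uv j)) with hg
  set z : J → ℝ := fun j => SignType.sign (g j) * |g j| ^ (s.toReal - 1) with hz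
  set A : ℝ := ∑ j, |g j| ^ s.toReal with hA
  have hA0 : 0 ≤ A := Finset.sum_nonneg fun _ _ => by positivity
  have h1 : φ (emb p z) = A := by
    rw [emb_eq_sum p z, map_sum, hA]
    refine Finset.sum_congr rfl fun j _ => ?_
    rw [map_smul, smul_eq_mul, hz]
    change SignType.sign (g j) * |g j| ^ (s.toReal - 1) * g j = _
    rcases eq_or_ne (g j) 0 with h0 | h0
    · simp [h0, Real.zero_rpow hst.ne']
    · have h2 : 0 < |g j| := abs_pos.2 h0
      have h3 : (SignType.sign (g j) : ℝ) * g j = |g j| := sign_mul_self (g j)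
      calc (SignType.sign (g j) : ℝ) * |g j| ^ (s.toReal - 1) * g j
          = (SignType.sign (g j) * g j) * |g j| ^ (s.toReal - 1) := by ring
        _ = |g j| * |g j| ^ (s.toReal - 1) := by rw [h3]
        _ = |g j| ^ s.toReal := by
            nth_rewrite 1 [← Real.rpow_one |g j|]
            rw [← Real.rpow_add h2]
            congr 1
            ring
  have h2 : ‖emb p z‖ ≤ A ^ (1 / p.toReal) := by
    rw [norm_emb hp0 hp]
    refine Real.rpow_le_rpow (Finset.sum_nonneg fun _ _ => by positivity) ?_ (by positivity)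
    refine Finset.sum_le_sum fun j _ => ?_
    have h3 : |z j| ≤ |g j| ^ (s.toReal - 1) := by
      rw [hz]
      simp only
      rw [abs_mul, abs_of_nonneg (Real.rpow_nonneg (abs_nonneg (g j)) _)]
      refine mul_le_of_le_one_left (by positivity) ?_
      rcases lt_trichotomy (g j) 0 with h | h | h
      · simp [sign_neg h]
      · simp [h]
      · simp [sign_pos h]
    calc |z j| ^ p.toReal ≤ (|g j| ^ (s.toReal - 1)) ^ p.toReal :=
          Real.rpow_le_rpow (abs_nonneg _) h3 hpt.le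
      _ = |g j| ^ s.toReal := by
          rw [← Real.rpow_mul (abs_nonneg _), hconj.sub_one_mul_conj]
  have h3 : A ≤ A ^ (1 / p.toReal) := by
    calc A = φ (emb p z) := h1.symm
      _ ≤ ‖φ (emb p z)‖ := Real.le_norm_self _
      _ ≤ ‖φ‖ * ‖emb p z‖ := ContinuousLinearMap.le_opNorm _ _
      _ ≤ 1 * ‖emb p z‖ := by gcongr
      _ ≤ _ := by rw [one_mul]; exact h2
  change A ≤ 1
  by_contra hcon
  push Not at hcon
  have h4 : A ^ (1 / p.toReal) < A ^ (1 : ℝ) := by
    apply Real.rpow_lt_rpow_of_exponent_lt hcon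
    rw [div_lt_one hpt]
    exact hconj.symm.lt
  rw [Real.rpow_one] at h4
  linarith

/-- Test vectors for the matrix give a lower bound for the summing norm. -/
lemma le_of_low {r κ C : ℝ} (hp : p ≠ ∞) (hs : s ≠ ∞) (hq : q ≠ ∞) (hqr : q.toReal ≤ r)
    {b : I → J → ℝ} (hb : Low s.toReal r b κ) (hC : SummingBound r (opr p s q b) C) :
    κ ≤ C ^ r := by
  have hq1 : (1 : ℝ≥0∞) ≤ q := Fact.out
  have hs1 : (1 : ℝ≥0∞) ≤ s := Fact.out
  have hq0 : q ≠ 0 := (zero_lt_one.trans_le hq1).ne'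
  have hs0 : s ≠ 0 := (zero_lt_one.trans_le hs1).ne'
  have hqt : 0 < q.toReal := ENNReal.toReal_pos hq0 hq
  have hr0 : 0 < r := hqt.trans_le hqr
  have hrq : 1 ≤ r / q.toReal := by rwa [le_div_iff₀ hqt, one_mul]
  obtain ⟨T, hT, w, hw, hκ⟩ := hb
  have h1 := hC.fintype (fun t => emb p (w t)) (W := 1) (fun φ hφ => by
    have h2 := hw _ (ball_of_norm_le (J := J) hp hs φ hφ)
    have h3 : ∀ t, φ (emb p (w t)) = ∑ j, w t j * φ (emb p (uv j)) := by
      intro t
      rw [emb_eq_sum p (w t), map_sum]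
      simp
    simp only [h3]
    exact Real.rpow_le_one (Finset.sum_nonneg fun _ _ => by positivity) h2 (by positivity))
  rw [mul_one] at h1
  have h4 : ∑ t, ‖opr p s q b (emb p (w t))‖ ^ r ≤ C ^ r := by
    have h5 := Real.rpow_le_rpow (by positivity) h1 hr0.le
    rwa [← Real.rpow_mul (Finset.sum_nonneg fun _ _ => by positivity),
      one_div, inv_mul_cancel₀ hr0.ne', Real.rpow_one] at h5
  refine hκ.trans (le_trans (Finset.sum_le_sum fun t _ => ?_) h4)
  rw [opr_emb, norm_emb hq0 hq, ← Real.rpow_mul (Finset.sum_nonneg fun _ _ => by positivity)]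
  have h6 : 1 / q.toReal * r = r / q.toReal := by ring
  rw [h6]
  refine le_trans (le_of_eq ?_) (sum_rpow_le_rpow_sum Finset.univ
    (fun i => |∑ j, b i j * w t j| ^ q.toReal) hrq (fun i _ => by positivity))
  refine Finset.sum_congr rfl fun i _ => ?_
  rw [← Real.rpow_mul (abs_nonneg _)]
  congr 1
  field_simp

end Main

end Pool.Agent.Lib.MP_b99895_an
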