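import Mathlib
import Pool.Agent.Lib.MP_b99895_an.Transfer
import Pool.Agent.Lib.MP_b99895_an.Blocks

set_option autoImplicit false

open MeasureTheory
open scoped ENNReal BigOperators

namespace Pool.Agent.Lib.MP_b99895_an

/-- Every finite matrix satisfies some domination. -/
lemma exists_dom {I J : Type} [Fintype I] [Fintype J] {s r : ℝ} (hs : 1 ≤ s)
    (b : I → J → ℝ) : ∃ K, 0 ≤ K ∧ Dom s r b K := by
  set N : ℝ := 1 + ∑ i, ∑ j, |b i j| with hN
  have hS0 : 0 ≤ ∑ i, ∑ j, |b i j| :=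
    Finset.sum_nonneg fun _ _ => Finset.sum_nonneg fun _ _ => abs_nonneg _
  have hN0 : 0 < N := by linarith
  refine ⟨∑ _i : I, N ^ r, Finset.sum_nonneg fun _ _ => by positivity, I, inferInstance,
    fun _ => N ^ r, fun i j => b i j / N, fun _ => by positivity, le_rfl, ?_, ?_⟩
  · intro i
    unfold Ball
    have h1 : ∑ j, |b i j| ≤ N := by
      have := Finset.single_le_sum (f := fun i => ∑ j, |b i j|)
        (fun i _ => Finset.sum_nonneg fun _ _ => abs_nonneg _) (Finset.mem_univ i)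
      linarith
    have h2 : ∀ j, |b i j / N| ≤ 1 := by
      intro j
      rw [abs_div, abs_of_pos hN0, div_le_one hN0]
      exact (Finset.single_le_sum (f := fun j => |b i j|) (fun j _ => abs_nonneg _)
        (Finset.mem_univ j)).trans h1
    calc ∑ j, |b i j / N| ^ s ≤ ∑ j, |b i j / N| := by
          refine Finset.sum_le_sum fun j _ => ?_
          calc |b i j / N| ^ s ≤ |b i j / N| ^ (1 : ℝ) :=
                Real.rpow_le_rpow_of_exponent_ge' (abs_nonneg _) (h2 j) zero_le_one hs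
            _ = _ := Real.rpow_one _
      _ = (∑ j, |b i j|) / N := by
          rw [Finset.sum_div]
          exact Finset.sum_congr rfl fun j _ => by rw [abs_div, abs_of_pos hN0]
      _ ≤ 1 := by rwa [div_le_one hN0]
  · intro x
    refine le_of_eq (Finset.sum_congr rfl fun i _ => ?_)
    have h1 : ∑ j, b i j / N * x j = (∑ j, b i j * x j) / N := by
      rw [Finset.sum_div]
      exact Finset.sum_congr rfl fun j _ => by ring
    rw [h1, abs_div, abs_of_pos hN0, Real.div_rpow (abs_nonneg _) hN0.le,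
      mul_div_cancel₀]
    positivity

section

variable {p s q : ℝ≥0∞} [Fact (1 ≤ p)] [Fact (1 ≤ s)] [Fact (1 ≤ q)] [ENNReal.HolderConjugate s p]

/-- A positive operator is its own modulus. -/
lemma isModulus_of_nonneg {U : Lp ℝ p leb →L[ℝ] Lp ℝ q leb} (hU : OpLE 0 U) : IsModulus U U := by
  refine ⟨⟨U, 0, hU, fun f _ => le_rfl, (sub_zero U).symm⟩, fun f _ => le_rfl, ?_,
    fun B _ h _ => h⟩
  intro f hf
  have h1 := hU f hf
  rw [zero_apply] at h1
  rw [neg_apply]
  exact (neg_nonpos.2 h1).trans h1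

/-- If the lattice property holds, then the test vectors of a matrix `b` are controlled by the
domination of any nonnegative matrix `a ≥ |b|`. -/
lemma key {r : ℝ} (hp : p ≠ ∞) (hs : s ≠ ∞) (hq : q ≠ ∞) (hqr : q.toReal ≤ r)
    (h : LatticeProperty p q r) :
    ∃ C : ℝ, 0 ≤ C ∧ ∀ (I J : Type) [Fintype I] [Fintype J] [Nonempty I] [Nonempty J]
      (a b : I → J → ℝ) (K κ : ℝ), 0 ≤ K → (∀ i j, |b i j| ≤ a i j) →
      Dom s.toReal r a K → Low s.toReal r b κ →
      κ ≤ C * ((Fintype.card I : ℝ) ^ (r / q.toReal - 1) * K) := by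
  have hs1 : (1 : ℝ≥0∞) ≤ s := Fact.out
  have hq1 : (1 : ℝ≥0∞) ≤ q := Fact.out
  have hq0 : q ≠ 0 := (zero_lt_one.trans_le hq1).ne'
  have hqt : 0 < q.toReal := ENNReal.toReal_pos hq0 hq
  have hr0 : 0 < r := hqt.trans_le hqr
  have hst1 : 1 ≤ s.toReal := by
    have := (ENNReal.toReal_le_toReal ENNReal.one_ne_top hs).2 hs1
    simpa using this
  obtain ⟨h1, C, hC⟩ := h
  refine ⟨|C| ^ r, by positivity, ?_⟩
  intro I J _ _ _ _ a b K κ hK hab ha hb
  have ha0 : ∀ i j, 0 ≤ a i j := fun i j => (abs_nonneg _).trans (hab i j)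
  set U : Lp ℝ p leb →L[ℝ] Lp ℝ q leb := opr p s q a with hU
  set V : Lp ℝ p leb →L[ℝ] Lp ℝ q leb := opr p s q b with hV
  have hUb := summingBound_of_dom (p := p) (q := q) hs hq hqr ha hK
  have hUs : IsSumming r U := ⟨_, hUb⟩
  obtain ⟨K', hK', hb'⟩ := exists_dom (r := r) hst1 b
  have hVs : IsSumming r V := ⟨_, summingBound_of_dom (p := p) (q := q) hs hq hqr hb' hK'⟩
  have hUpos : OpLE 0 U := opr_nonneg p s q ha0
  have hUmod : IsModulus U U := isModulus_of_nonneg hUpos
  obtain ⟨-, B, hB, -⟩ := h1 V hVs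
  have hVU : OpLE V U := opr_mono p s q fun i j => (le_abs_self _).trans (hab i j)
  have hVU' : OpLE (-V) U := by
    rw [hV, ← opr_neg]
    exact opr_mono p s q fun i j => (neg_le_abs _).trans (hab i j)
  have hBU : OpLE B U := hB.2.2.2 U hUmod.1 hVU hVU'
  have h2 := hC U V U B hUs hVs hUmod hB hBU
  have h3 := le_of_low hp hs hq hqr hb (piNorm_bound hr0 hVs)
  have h4 : piNorm r V ≤ |C| * ((Fintype.card I : ℝ) ^ (r / q.toReal - 1) * K) ^ (1 / r) := by
    calc piNorm r V ≤ C * piNorm r U := h2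
      _ ≤ |C| * piNorm r U := mul_le_mul_of_nonneg_right (le_abs_self C) (piNorm_nonneg r U)
      _ ≤ _ := mul_le_mul_of_nonneg_left (piNorm_le hUb) (abs_nonneg C)
  refine h3.trans ((Real.rpow_le_rpow (piNorm_nonneg r V) h4 hr0.le).trans_eq ?_)
  rw [Real.mul_rpow (abs_nonneg _) (by positivity), ← Real.rpow_mul (by positivity),
    one_div, inv_mul_cancel₀ hr0.ne', Real.rpow_one]

end

/-- conjugate exponents -/
lemma conj_facts {r p : ℝ} (hr : 2 < r) (hp1 : r / (r - 1) < p) (hp2 : p < 2) :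
    1 < p ∧ 2 < p / (p - 1) ∧ p / (p - 1) < r := by
  have h0 : 0 < r - 1 := by linarith
  have h1 : 1 < r / (r - 1) := by rw [lt_div_iff₀ h0]; linarith
  have hp : 1 < p := h1.trans hp1
  have h2 : 0 < p - 1 := by linarith
  refine ⟨hp, ?_, ?_⟩
  · rw [lt_div_iff₀ h2]; linarith
  · rw [div_lt_iff₀ h2]
    rw [div_lt_iff₀ h0] at hp1
    linarith

/-- endpoint case -/
theorem endpoint {r p : ℝ} [Fact (1 ≤ ENNReal.ofReal p)] [Fact (1 ≤ ENNReal.ofReal r)]
    (hr : 2 < r) (hp1 : r / (r - 1) < p) (hp2 : p < 2) :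
    ¬ LatticeProperty (ENNReal.ofReal p) (ENNReal.ofReal r) r := by
  obtain ⟨hp, hs2, hsr⟩ := conj_facts hr hp1 hp2
  set s : ℝ := p / (p - 1) with hs
  have hconj : s.HolderConjugate p := (Real.HolderConjugate.conjExponent hp).symm
  have : ENNReal.HolderConjugate (ENNReal.ofReal s) (ENNReal.ofReal p) := hconj.ennrealOfReal
  have : Fact (1 ≤ ENNReal.ofReal s) := ⟨by rw [ENNReal.one_le_ofReal]; linarith⟩
  intro h
  have hsr' : (ENNReal.ofReal s).toReal = s := ENNReal.toReal_ofReal (by linarith)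
  have hr' : (ENNReal.ofReal r).toReal = r := ENNReal.toReal_ofReal (by linarith)
  obtain ⟨C, hC0, hC⟩ := key (s := ENNReal.ofReal s) ENNReal.ofReal_ne_top ENNReal.ofReal_ne_top
    ENNReal.ofReal_ne_top hr'.le h
  obtain ⟨I, J, _, _, _, _, a, b, K, κ, hK, hκ, hab, hdom, hlow, hRK⟩ := exists_base hs2 hsr C
  have h1 := hC I J a b K κ hK.le hab (by rwa [hsr']) (by rwa [hsr'])
  rw [hr', div_self (by linarith), sub_self, Real.rpow_zero, one_mul] at h1
  linarith

/-- interior case -/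
theorem interior {r p : ℝ} [Fact (1 ≤ ENNReal.ofReal p)]
    (hr : 2 < r) (hp1 : r / (r - 1) < p) (hp2 : p < 2) :
    ∃ q₀ : ℝ, 2 ≤ q₀ ∧ q₀ < r ∧ ∀ (q : ℝ) [Fact (1 ≤ ENNReal.ofReal q)], q₀ < q → q < r →
      ¬ LatticeProperty (ENNReal.ofReal p) (ENNReal.ofReal q) r := by
  obtain ⟨hp, hs2, hsr⟩ := conj_facts hr hp1 hp2
  set s : ℝ := p / (p - 1) with hs
  have hconj : s.HolderConjugate p := (Real.HolderConjugate.conjExponent hp).symm
  have : ENNReal.HolderConjugate (ENNReal.ofReal s) (ENNReal.ofReal p) := hconj.ennrealOfReal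
  have : Fact (1 ≤ ENNReal.ofReal s) := ⟨by rw [ENNReal.one_le_ofReal]; linarith⟩
  have hsr' : (ENNReal.ofReal s).toReal = s := ENNReal.toReal_ofReal (by linarith)
  obtain ⟨I, J, _, _, _, _, a, b, K, κ, hK, hκ, hab, hdom, hlow, hRK⟩ := exists_base hs2 hsr 2
  have hn : (0 : ℝ) < Fintype.card I := by exact_mod_cast Fintype.card_pos (α := I)
  set n : ℝ := (Fintype.card I : ℝ) with hn'
  have hlog : 0 < Real.log 2 := Real.log_pos (by norm_num)
  set x₀ : ℝ := Real.log 2 / n with hx₀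
  have hx₀pos : 0 < x₀ := by positivity
  have hr0 : 0 < r := by linarith
  refine ⟨max 2 (r / (1 + x₀)), le_max_left _ _, max_lt hr ?_, ?_⟩
  · rw [div_lt_iff₀ (by positivity)]
    nlinarith
  intro q _ hq1 hq2 h
  have hq2' : 2 < q := (le_max_left _ _).trans_lt hq1
  have hq0 : 0 < q := by linarith
  have hq3 : r / (1 + x₀) < q := (le_max_right _ _).trans_lt hq1
  have hqr' : (ENNReal.ofReal q).toReal = q := ENNReal.toReal_ofReal (by linarith)
  obtain ⟨C, hC0, hC⟩ := key (s := ENNReal.ofReal s) ENNReal.ofReal_ne_top ENNReal.ofReal_ne_top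
    ENNReal.ofReal_ne_top (by rw [hqr']; exact hq2.le) h
  -- `θ = n ^ (r / q - 1) < 2`
  have hx : r / q - 1 < x₀ := by
    rw [div_lt_iff₀ (by positivity)] at hq3
    rw [sub_lt_iff_lt_add, div_lt_iff₀ hq0]
    linarith
  have hx0 : 0 ≤ r / q - 1 := by
    rw [sub_nonneg, le_div_iff₀ hq0]; linarith
  have hθ : n ^ (r / q - 1) < 2 := by
    rw [← Real.log_lt_log_iff (by positivity) (by norm_num), Real.log_rpow hn]
    have h1 : Real.log n ≤ n := (Real.log_le_sub_one_of_pos hn).trans (by linarith)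
    calc (r / q - 1) * Real.log n ≤ (r / q - 1) * n := by gcongr
      _ < x₀ * n := by gcongr
      _ = Real.log 2 := by rw [hx₀]; field_simp
  have hθ0 : 0 < n ^ (r / q - 1) := by positivity
  set θ : ℝ := n ^ (r / q - 1) with hθdef
  -- the powers
  have hpow : ∀ M : ℕ, κ ^ M ≤ C * (θ ^ M * K ^ M) := by
    intro M
    obtain ⟨I', J', _, _, _, a', b', hcard, hab', hdom', hlow'⟩ :=
      exists_power (by linarith : 1 ≤ s) hsr.le hab hK.le hκ hdom hlow M
    have hI' : Nonempty I' := by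
      rw [← Fintype.card_pos_iff, hcard]
      exact pow_pos Fintype.card_pos M
    have h1 := hC I' J' a' b' (K ^ M) (κ ^ M) (by positivity) hab' (by rwa [hsr']) (by rwa [hsr'])
    rw [hqr', hcard] at h1
    refine h1.trans_eq ?_
    congr 2
    rw [hθdef, ← Real.rpow_natCast (n ^ (r / q - 1)) M, ← Real.rpow_mul hn.le, mul_comm,
      Real.rpow_mul hn.le, Real.rpow_natCast]
    push_cast
    rw [hn']
  have hratio : 1 < κ / (θ * K) := by
    rw [lt_div_iff₀ (by positivity), one_mul]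
    calc θ * K < 2 * K := by gcongr
      _ < κ := hRK
  obtain ⟨M, hM⟩ := ((tendsto_pow_atTop_atTop_of_one_lt hratio).eventually_gt_atTop C).exists
  have h2 := hpow M
  rw [div_pow, lt_div_iff₀ (by positivity), mul_pow] at hM
  linarith

end Pool.Agent.Lib.MP_b99895_an
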