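import Pool.Agent.Lib.MP_b99895_an.Finite

set_option autoImplicit false

open scoped BigOperators

namespace Pool.Agent.Lib.MP_b99895_an

/-! ## Orthogonal signs -/

section Signs

variable {I : Type} [Fintype I] [DecidableEq I]

/-- the `i`-th sign of `ω` -/
def sgn (i : I) (ω : I → Bool) : ℝ := if ω i then 1 else -1

lemma sgn_sq (i : I) (ω : I → Bool) : sgn i ω * sgn i ω = 1 := by
  unfold sgn; split_ifs <;> norm_num

lemma abs_sgn (i : I) (ω : I → Bool) : |sgn i ω| = 1 := by
  unfold sgn; split_ifs <;> norm_num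

/-- the number of sign patterns -/
noncomputable def nΩ (I : Type) [Fintype I] [DecidableEq I] : ℝ := (Fintype.card (I → Bool) : ℝ)

lemma nΩ_pos : 0 < nΩ I := by
  unfold nΩ
  exact_mod_cast Fintype.card_pos

lemma sum_one : ∑ _ω : I → Bool, (1 : ℝ) = nΩ I := by
  simp [nΩ]

lemma sgn_orth_self (i : I) : ∑ ω : I → Bool, sgn i ω * sgn i ω = nΩ I := by
  simp only [sgn_sq]
  exact sum_one

lemma sgn_orth_ne {i j : I} (h : i ≠ j) : ∑ ω : I → Bool, sgn i ω * sgn j ω = 0 := by
  have hinv : Function.Involutive (fun ω : I → Bool => Function.update ω i (!ω i)) := by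
    intro ω
    funext k
    by_cases hk : k = i
    · subst hk; simp
    · simp [Function.update_of_ne hk]
  have h1 := Equiv.sum_comp (hinv.toPerm _) (fun ω : I → Bool => sgn i ω * sgn j ω)
  have h2 : ∀ ω : I → Bool, sgn i (hinv.toPerm _ ω) * sgn j (hinv.toPerm _ ω)
      = -(sgn i ω * sgn j ω) := by
    intro ω
    have e1 : sgn i (hinv.toPerm _ ω) = - sgn i ω := by
      simp only [Function.Involutive.coe_toPerm, sgn, Function.update_self]
      cases ω i <;> simp
    have e2 : sgn j (hinv.toPerm _ ω) = sgn j ω := by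
      simp only [Function.Involutive.coe_toPerm, sgn, Function.update_of_ne (Ne.symm h)]
    rw [e1, e2]; ring
  simp only [h2, Finset.sum_neg_distrib] at h1
  linarith

lemma sgn_orth (i j : I) : ∑ ω : I → Bool, sgn i ω * sgn j ω = if i = j then nΩ I else 0 := by
  split_ifs with h
  · subst h; exact sgn_orth_self i
  · exact sgn_orth_ne h

/-- `∑_ω (∑_i ε_i(ω) y_i)² = |Ω| ∑ y_i²` -/
lemma sgn_parseval (y : I → ℝ) :
    ∑ ω : I → Bool, (∑ i, sgn i ω * y i) ^ 2 = nΩ I * ∑ i, y i ^ 2 := by
  have h1 : ∀ ω : I → Bool, (∑ i, sgn i ω * y i) ^ 2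
      = ∑ i, ∑ j, (y i * y j) * (sgn i ω * sgn j ω) := by
    intro ω
    rw [sq, Finset.sum_mul_sum]
    exact Finset.sum_congr rfl fun i _ => Finset.sum_congr rfl fun j _ => by ring
  simp only [h1]
  rw [Finset.sum_comm, Finset.mul_sum]
  refine Finset.sum_congr rfl fun i _ => ?_
  rw [Finset.sum_comm]
  simp only [← Finset.mul_sum, sgn_orth]
  simp
  ring

/-- Bessel's inequality. -/
lemma sgn_bessel (g : (I → Bool) → ℝ) :
    ∑ i, (∑ ω, sgn i ω * g ω) ^ 2 ≤ nΩ I * ∑ ω, g ω ^ 2 := by
  set c : I → ℝ := fun i => ∑ ω, sgn i ω * g ω with hc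
  set n := nΩ I with hn
  have hn0 : 0 < n := nΩ_pos
  have h1 : 0 ≤ ∑ ω : I → Bool, (g ω - n⁻¹ * ∑ i, sgn i ω * c i) ^ 2 :=
    Finset.sum_nonneg fun _ _ => sq_nonneg _
  have h2 : ∑ ω : I → Bool, (g ω - n⁻¹ * ∑ i, sgn i ω * c i) ^ 2
      = ∑ ω, g ω ^ 2 - n⁻¹ * ∑ i, c i ^ 2 := by
    have e1 : ∀ ω : I → Bool, (g ω - n⁻¹ * ∑ i, sgn i ω * c i) ^ 2
        = g ω ^ 2 - 2 * n⁻¹ * (g ω * ∑ i, sgn i ω * c i)
          + n⁻¹ ^ 2 * (∑ i, sgn i ω * c i) ^ 2 := by intro ω; ring
    have e2 : ∑ ω, g ω * ∑ i, sgn i ω * c i = ∑ i, c i ^ 2 := by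
      simp only [Finset.mul_sum]
      rw [Finset.sum_comm]
      refine Finset.sum_congr rfl fun i _ => ?_
      rw [sq]
      nth_rewrite 2 [hc]
      rw [Finset.mul_sum]
      exact Finset.sum_congr rfl fun ω _ => by ring
    simp only [e1, Finset.sum_add_distrib, Finset.sum_sub_distrib, ← Finset.mul_sum]
    rw [e2, sgn_parseval, ← hn]
    field_simp
    ring
  rw [h2] at h1
  have h3 : n⁻¹ * ∑ i, c i ^ 2 ≤ ∑ ω, g ω ^ 2 := by linarith
  rwa [inv_mul_le_iff₀ hn0] at h3

/-- power means on `Ω` -/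
lemma power_mean {Ω : Type} [Fintype Ω] [Nonempty Ω] (g : Ω → ℝ) {s : ℝ} (hs : 2 ≤ s) :
    ((Fintype.card Ω : ℝ)⁻¹ * ∑ ω, g ω ^ 2) ^ (s / 2) ≤
      (Fintype.card Ω : ℝ)⁻¹ * ∑ ω, |g ω| ^ s := by
  have hn : (0 : ℝ) < Fintype.card Ω := by exact_mod_cast Fintype.card_pos
  have h := Real.rpow_arith_mean_le_arith_mean_rpow (Finset.univ : Finset Ω)
    (fun _ => (Fintype.card Ω : ℝ)⁻¹) (fun ω => g ω ^ 2) (fun _ _ => by positivity)
    (by rw [Finset.sum_const, Finset.card_univ, nsmul_eq_mul, mul_inv_cancel₀ hn.ne'])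
    (fun _ _ => sq_nonneg _) (p := s / 2) (by linarith)
  simp only [← Finset.mul_sum] at h
  refine h.trans_eq ?_
  congr 1
  refine Finset.sum_congr rfl fun ω _ => ?_
  rw [← sq_abs, ← Real.rpow_natCast, ← Real.rpow_mul (abs_nonneg _)]
  congr 1
  push_cast
  ring

/-- `(∑ y_i²)^{r/2} ≤ E_ω |∑ ε_i(ω) y_i|^r` for `r ≥ 2`. -/
lemma sgn_khinchine (y : I → ℝ) {r : ℝ} (hr : 2 ≤ r) :
    (∑ i, y i ^ 2) ^ (r / 2) ≤ (nΩ I)⁻¹ * ∑ ω : I → Bool, |∑ i, sgn i ω * y i| ^ r := by
  have h := power_mean (fun ω : I → Bool => ∑ i, sgn i ω * y i) hr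
  rw [sgn_parseval] at h
  have hn : nΩ I = (Fintype.card (I → Bool) : ℝ) := rfl
  rw [← hn, ← mul_assoc, inv_mul_cancel₀ nΩ_pos.ne', one_mul] at h
  exact h

end Signs

/-! ## The signed version of a nonnegative matrix -/

section Signed

variable {I J : Type} [Fintype I] [DecidableEq I] [Fintype J]

/-- the signed version of a matrix -/
def signed (f : I → J → ℝ) : I → J × (I → Bool) → ℝ := fun i j => sgn i j.2 * f i j.1

/-- the unsigned version -/
def unsigned (f : I → J → ℝ) : I → J × (I → Bool) → ℝ := fun i j => f i j.1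

lemma abs_signed_le {f : I → J → ℝ} (hf : ∀ i j, 0 ≤ f i j) (i : I) (j : J × (I → Bool)) :
    |signed f i j| ≤ unsigned f i j := by
  unfold signed unsigned
  rw [abs_mul, abs_sgn, one_mul, abs_of_nonneg (hf _ _)]

/-- The signed version of a nonnegative matrix is as bad as the trivial order bounded estimate. -/
lemma low_signed {f : I → J → ℝ} (hf : ∀ i j, 0 ≤ f i j) {s r : ℝ} (hs : 2 ≤ s) (hsr : s ≤ r) :
    Low s r (signed f) (nΩ I ^ (r / s) * ∑ i, (∑ j, f i j ^ s) ^ (r / s)) := by
  classical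
  have hs0 : 0 < s := by linarith
  have hs1 : 0 < s - 1 := by linarith
  have hr0 : 0 < r := by linarith
  set n := nΩ I with hn
  have hn0 : 0 < n := nΩ_pos
  set A : I → ℝ := fun i => ∑ j, f i j ^ s with hA
  have hA0 : ∀ i, 0 ≤ A i := fun i => Finset.sum_nonneg fun j _ => Real.rpow_nonneg (hf i j) s
  set c : ℝ := n ^ (-((s - 1) / s)) with hc
  have hc0 : 0 < c := Real.rpow_pos_of_pos hn0 _
  set u : I → J → ℝ := fun k j => f k j ^ (s - 1) / A k ^ ((s - 1) / s) with hu
  have hu0 : ∀ k j, 0 ≤ u k j := fun k j =>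
    div_nonneg (Real.rpow_nonneg (hf k j) _) (Real.rpow_nonneg (hA0 k) _)
  refine ⟨I, inferInstance, fun k j => c * sgn k j.2 * u k j.1, ?_, ?_⟩
  · intro g hg
    -- partial Fourier coefficients
    set z : I → J → ℝ := fun k j => c * ∑ ω, sgn k ω * g (j, ω) with hz
    have e1 : ∀ k, ∑ j : J × (I → Bool), c * sgn k j.2 * u k j.1 * g j = ∑ j, u k j * z k j := by
      intro k
      rw [Fintype.sum_prod_type]
      refine Finset.sum_congr rfl fun j _ => ?_
      simp only [hz, Finset.mul_sum]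
      exact Finset.sum_congr rfl fun ω _ => by ring
    -- Hölder
    have hconj : (s / (s - 1)).HolderConjugate s := by
      rw [Real.holderConjugate_iff]
      refine ⟨?_, ?_⟩
      · rw [lt_div_iff₀ hs1]; linarith
      · field_simp; ring
    have hu1 : ∀ k, ∑ j, |u k j| ^ (s / (s - 1)) ≤ 1 := by
      intro k
      have h1 : ∀ j, |u k j| ^ (s / (s - 1)) = f k j ^ s / A k := by
        intro j
        rw [abs_of_nonneg (hu0 k j)]
        simp only [hu]
        rw [Real.div_rpow (Real.rpow_nonneg (hf k j) _) (Real.rpow_nonneg (hA0 k) _),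
          ← Real.rpow_mul (hf k j), ← Real.rpow_mul (hA0 k)]
        have h2 : (s - 1) * (s / (s - 1)) = s := by field_simp
        have h3 : (s - 1) / s * (s / (s - 1)) = 1 := by field_simp
        rw [h2, h3, Real.rpow_one]
      simp only [h1, ← Finset.sum_div]
      exact div_self_le_one _
    have e2 : ∀ k, |∑ j, u k j * z k j| ≤ (∑ j, |z k j| ^ s) ^ (1 / s) := by
      intro k
      have hpos : ∀ (y : J → ℝ), ∑ j, u k j * y j ≤ (∑ j, |y j| ^ s) ^ (1 / s) := by
        intro y
        have h1 := Real.inner_le_Lp_mul_Lq (Finset.univ : Finset J) (u k) y hconj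
        refine h1.trans ?_
        have h2 : (∑ j, |u k j| ^ (s / (s - 1))) ^ (1 / (s / (s - 1))) ≤ 1 :=
          Real.rpow_le_one (Finset.sum_nonneg fun _ _ => by positivity) (hu1 k) (by positivity)
        exact mul_le_of_le_one_left
          (Real.rpow_nonneg (Finset.sum_nonneg fun _ _ => by positivity) _) h2
      rw [abs_le']
      refine ⟨hpos _, ?_⟩
      have := hpos (fun j => - z k j)
      simpa using this
    -- Bessel and power means
    have e3 : ∀ j, ∑ k, |z k j| ^ s ≤ ∑ ω, |g (j, ω)| ^ s := by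
      intro j
      have h1 : ∑ k, |z k j| ^ s ≤ (∑ k, z k j ^ 2) ^ (s / 2) := by
        have h := sum_rpow_le_rpow_sum (Finset.univ : Finset I) (fun k => z k j ^ 2)
          (t := s / 2) (by linarith) (fun _ _ => sq_nonneg _)
        refine le_trans (le_of_eq ?_) h
        refine Finset.sum_congr rfl fun k _ => ?_
        rw [← sq_abs, ← Real.rpow_natCast, ← Real.rpow_mul (abs_nonneg _)]
        congr 1
        push_cast
        ring
      have h2 : ∑ k, z k j ^ 2 ≤ n ^ (2 / s) * (n⁻¹ * ∑ ω, g (j, ω) ^ 2) := by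
        have h3 : ∑ k, z k j ^ 2 = c ^ 2 * ∑ k, (∑ ω, sgn k ω * g (j, ω)) ^ 2 := by
          rw [Finset.mul_sum]
          exact Finset.sum_congr rfl fun k _ => by simp only [hz]; ring
        rw [h3]
        have h4 := sgn_bessel (fun ω => g (j, ω))
        have h5 : c ^ 2 * (n * ∑ ω, g (j, ω) ^ 2)
            = n ^ (2 / s) * (n⁻¹ * ∑ ω, g (j, ω) ^ 2) := by
          have h6 : c ^ 2 * n = n ^ (2 / s) * n⁻¹ := by
            rw [hc, ← Real.rpow_natCast, ← Real.rpow_mul hn0.le, ← Real.rpow_neg_one n]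
            nth_rewrite 2 [← Real.rpow_one n]
            rw [← Real.rpow_add hn0, ← Real.rpow_add hn0]
            congr 1
            push_cast
            field_simp
            ring
          rw [← mul_assoc, h6, mul_assoc]
        rw [← h5]
        exact mul_le_mul_of_nonneg_left h4 (by positivity)
      have h7 : 0 ≤ n⁻¹ * ∑ ω, g (j, ω) ^ 2 :=
        mul_nonneg (by positivity) (Finset.sum_nonneg fun _ _ => sq_nonneg _)
      have h8 := power_mean (fun ω : I → Bool => g (j, ω)) hs
      calc ∑ k, |z k j| ^ s ≤ (∑ k, z k j ^ 2) ^ (s / 2) := h1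
        _ ≤ (n ^ (2 / s) * (n⁻¹ * ∑ ω, g (j, ω) ^ 2)) ^ (s / 2) :=
            Real.rpow_le_rpow (Finset.sum_nonneg fun _ _ => sq_nonneg _) h2 (by positivity)
        _ = n * (n⁻¹ * ∑ ω, g (j, ω) ^ 2) ^ (s / 2) := by
            rw [Real.mul_rpow (by positivity) h7, ← Real.rpow_mul hn0.le]
            congr 1
            rw [div_mul_div_comm, mul_comm 2 s, div_self (by positivity), Real.rpow_one]
        _ ≤ n * (n⁻¹ * ∑ ω, |g (j, ω)| ^ s) := mul_le_mul_of_nonneg_left h8 hn0.le
        _ = ∑ ω, |g (j, ω)| ^ s := by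
            rw [← mul_assoc, mul_inv_cancel₀ hn0.ne', one_mul]
    simp only [e1]
    have ht : 1 ≤ r / s := by rwa [le_div_iff₀ hs0, one_mul]
    calc ∑ k, |∑ j, u k j * z k j| ^ r
        ≤ ∑ k, (∑ j, |z k j| ^ s) ^ (r / s) := by
          refine Finset.sum_le_sum fun k _ => ?_
          refine (Real.rpow_le_rpow (abs_nonneg _) (e2 k) hr0.le).trans_eq ?_
          rw [← Real.rpow_mul (Finset.sum_nonneg fun _ _ => by positivity)]
          congr 1
          ring
      _ ≤ (∑ k, ∑ j, |z k j| ^ s) ^ (r / s) :=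
          sum_rpow_le_rpow_sum _ _ ht fun _ _ => Finset.sum_nonneg fun _ _ => by positivity
      _ ≤ 1 := by
          refine Real.rpow_le_one (Finset.sum_nonneg fun _ _ =>
            Finset.sum_nonneg fun _ _ => by positivity) ?_ (by positivity)
          rw [Finset.sum_comm]
          refine (Finset.sum_le_sum fun j _ => e3 j).trans ?_
          unfold Ball at hg
          rwa [Fintype.sum_prod_type] at hg
  · -- the strong norm
    rw [Finset.mul_sum]
    refine Finset.sum_le_sum fun k _ => ?_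
    have hterm : |∑ j : J × (I → Bool), signed f k j * (c * sgn k j.2 * u k j.1)| ^ r
        = n ^ (r / s) * A k ^ (r / s) := by
      have h1 : ∑ j : J × (I → Bool), signed f k j * (c * sgn k j.2 * u k j.1)
          = n ^ (1 / s) * A k ^ (1 / s) := by
        rw [Fintype.sum_prod_type]
        have h2 : ∀ j, ∑ ω : I → Bool, signed f k (j, ω) * (c * sgn k (j, ω).2 * u k (j, ω).1)
            = (c * n) * (f k j * u k j) := by
          intro j
          have h3 : ∀ ω : I → Bool, signed f k (j, ω) * (c * sgn k (j, ω).2 * u k (j, ω).1)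
              = (c * (f k j * u k j)) * (sgn k ω * sgn k ω) := by
            intro ω; simp only [signed]; ring
          simp only [h3, ← Finset.mul_sum]
          rw [sgn_orth_self]
          ring
        simp only [h2, ← Finset.mul_sum]
        congr 1
        · rw [hc]
          nth_rewrite 2 [← Real.rpow_one n]
          rw [← Real.rpow_add hn0]
          congr 1
          field_simp
          ring
        · have h4 : ∀ j, f k j * u k j = f k j ^ s / A k ^ ((s - 1) / s) := by
            intro j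
            simp only [hu]
            rw [mul_div_assoc']
            congr 1
            rcases (hf k j).eq_or_lt with h0 | h0
            · rw [← h0, zero_mul, Real.zero_rpow hs0.ne']
            · nth_rewrite 1 [← Real.rpow_one (f k j)]
              rw [← Real.rpow_add h0]
              congr 1
              ring
          simp only [h4, ← Finset.sum_div]
          change A k / A k ^ ((s - 1) / s) = A k ^ (1 / s)
          rcases (hA0 k).eq_or_lt with h0 | h0
          · rw [← h0, zero_div, Real.zero_rpow (by positivity)]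
          · rw [div_eq_iff (Real.rpow_pos_of_pos h0 _).ne', ← Real.rpow_add h0]
            nth_rewrite 1 [← Real.rpow_one (A k)]
            congr 1
            field_simp
            ring
      rw [h1, abs_of_nonneg (mul_nonneg (Real.rpow_nonneg hn0.le _) (Real.rpow_nonneg (hA0 k) _)),
        Real.mul_rpow (Real.rpow_nonneg hn0.le _) (Real.rpow_nonneg (hA0 k) _),
        ← Real.rpow_mul hn0.le, ← Real.rpow_mul (hA0 k)]
      congr 2 <;> ring
    rw [← hterm]
    exact Finset.single_le_sum
      (f := fun i => |∑ j : J × (I → Bool), signed f i j * (c * sgn k j.2 * u k j.1)| ^ r)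
      (fun _ _ => by positivity) (Finset.mem_univ k)

end Signed

end Pool.Agent.Lib.MP_b99895_an
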